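import Pool.Agent.FC8.Spt
import Pool.Agent.FC7.Tq6

/-! # Maximum degree 6: the facts and the star inequality give linear free sets -/

namespace Pool.FC8

open Pool.FC6 Pool.FC7

/-- THE FINAL ASSEMBLY: a list of facts and flows with the star inequality -/
theorem noMCt6_of {den nl nu : ℕ} {F : List ℕ → List ℕ → ℕ} (hden : 0 < den)
    (hnl : 5 * nl ≤ 8 * den) (hnu : 2 * nu < 3 * den) {facts : List Pool.FCS.Fct}
    (hfacts : ∀ X ∈ facts, NoL X.1 X.2) (hok : facts.all okf = true)
    (hstar : StarOk facts den nl nu F) : FTL.NoMCt6 :=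
  fun _ _ _ _ _ _ _ hM => Spt.noMCt hden hnl hnu hfacts hok hstar hM

end Pool.FC8
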