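import Pool.Agent.FC8.Asm
import Pool.Agent.FC7.AsD

/-! # Maximum degree 6: the assembly with the price of the neighbours outside

A neighbour outside of the region costs `nu / (2 * den) < 3/4`, plus `hg / (2 * den) ≤ 1/4` or
`hl / (2 * den) ≤ 2/5` for each gap corner next to the edge; if it is the only one, `dl / (2 * den)`
more, in all less than 1. -/

namespace Pool.FC8

open Pool.FC6 Pool.FC7

/-- THE STAR INEQUALITY AND THE FACTS: there is no minimal counterexample in canonical form -/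
theorem noMCt2 {D V : Type} [Fintype D] [DecidableEq V] {S : Pool.FC6.St D V} {L : D → Bool}
    {w : D → ℕ} {den nl nu dl hg hl : ℕ} {F : List ℕ → List ℕ → ℕ} (hden : 0 < den)
    (hnl : 5 * nl ≤ 8 * den) (hnu : 2 * nu < 3 * den) (hdl : nu + dl < 2 * den)
    (hhg : 2 * hg ≤ den) (hhl : 5 * hl ≤ 4 * den)
    {facts : List Pool.FCS.Fct} (hfacts : ∀ X ∈ facts, NoL X.1 X.2)
    (hok : facts.all okf = true) (hstar : StarOk2 facts den nl nu dl (hgf hg hl) F)
    (hM : MCt tbd 6 S L w) : False :=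
  noMCt_of_star2 hden hnl hnu hdl hhg hhl hfacts hok hstar Sp.FL_ok Spt.okf_ok E1.LF1 E1.LF2
    Spt.f3 Spt.nosp hM

/-- THE FINAL ASSEMBLY: a list of facts and flows with the star inequality -/
theorem noMCt6_of2 {den nl nu dl hg hl : ℕ} {F : List ℕ → List ℕ → ℕ} (hden : 0 < den)
    (hnl : 5 * nl ≤ 8 * den) (hnu : 2 * nu < 3 * den) (hdl : nu + dl < 2 * den)
    (hhg : 2 * hg ≤ den) (hhl : 5 * hl ≤ 4 * den) {facts : List Pool.FCS.Fct}
    (hfacts : ∀ X ∈ facts, NoL X.1 X.2) (hok : facts.all okf = true)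
    (hstar : StarOk2 facts den nl nu dl (hgf hg hl) F) : FTL.NoMCt6 :=
  fun _ _ _ _ _ _ _ hM => noMCt2 hden hnl hnu hdl hhg hhl hfacts hok hstar hM

end Pool.FC8
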