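import Pool.Agent.FC7.StS

/-! # The region with two vertices: the table -/

namespace Pool.FC8.SpT

open Pool.FC7

/-- the facts -/
def F : List (List ℕ × List (ℕ × List ℕ)) :=
  [([33, 32, 42, 5], []),
    ([32, 33, 42, 5], [(1, [0, 15, 0, 12])]),
    ([0, 32, 11, 32], []),
    ([33, 32, 32, 32], []),
    ([4, 5, 4, 5], []),
    ([0, 0, 0, 32], []),
    ([0, 33, 33, 32], []),
    ([33, 32, 4, 5], []),
    ([0, 34, 8, 32], []),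
    ([0, 11, 15, 32], []),
    ([8, 8, 34, 32], [(0, []), (2, []), (3, [32, 8, 32, 34])]),
    ([8, 8, 33, 33], [(0, []), (2, []), (3, [33, 8, 32, 2])]),
    ([0, 33, 8, 33], []),
    ([0, 33, 15, 33], []),
    ([11, 32, 15, 32], [(1, []), (2, [32, 8, 0, 34]), (3, [])]),
    ([0, 2, 0, 13], [(0, []), (2, []), (3, [32, 8, 0, 34])]),
    ([33, 32, 33, 32], [(0, []), (1, [2, 0, 13, 32]), (2, [])]),
    ([0, 11, 32, 15], [(0, []), (1, [32, 33, 32, 14]), (2, [])]),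
    ([0, 11, 32, 32], [(0, []), (1, [0, 14, 32, 14]), (2, [])]),
    ([0, 14, 32, 33], [(0, [32, 32, 34, 32]), (1, []), (3, [])]),
    ([0, 34, 0, 32], [(0, []), (2, []), (3, [0, 16, 32, 11])]),
    ([0, 11, 32, 15], [(1, []), (2, [32, 32, 11, 32]), (3, [])]),
    ([0, 15, 0, 34], [(0, [33, 0, 2, 32]), (1, []), (3, [])]),
    ([2, 32, 13, 32], [(0, []), (2, []), (3, [32, 32, 11, 32])]),
    ([0, 2, 32, 2], [(0, []), (2, []), (3, [32, 2, 0, 33])])]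

/-- the words and the pairs of words, with the facts which exclude them -/
def T : List (List ℕ × List (List ℕ × ℕ)) :=
  [([0, 0, 0, 0], [([0, 0, 0, 0], 80), ([0, 0, 2, 0], 58), ([0, 0, 11, 0], 40), ([0, 0, 12, 0], 45), ([0, 0, 13, 0], 58), ([0, 0, 14, 0], 58), ([0, 2, 0, 0], 57), ([0, 2, 2, 0], 80), ([0, 2, 14, 0], 80), ([0, 8, 11, 0], 40), ([0, 8, 12, 0], 45), ([0, 11, 0, 0], 43), ([0, 11, 8, 0], 43), ([0, 11, 15, 0], 43), ([0, 11, 16, 0], 43), ([0, 12, 0, 0], 44), ([0, 12, 8, 0], 44), ([0, 12, 16, 0], 44), ([0, 13, 0, 0], 57), ([0, 13, 2, 0], 80), ([0, 13, 13, 0], 80), ([0, 13, 14, 0], 80), ([0, 14, 0, 0], 57), ([0, 14, 14, 0], 80), ([0, 15, 11, 0], 40), ([0, 15, 12, 0], 45), ([0, 16, 12, 0], 45)]),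
    ([0, 0, 0, 2], [([2, 0, 0, 0], 51), ([2, 0, 2, 0], 51), ([2, 0, 13, 0], 51), ([2, 0, 14, 0], 51), ([2, 2, 0, 0], 51), ([2, 2, 8, 0], 51), ([2, 2, 16, 0], 51), ([2, 4, 5, 0], 51), ([2, 8, 2, 0], 51), ([2, 8, 14, 0], 51), ([2, 14, 0, 0], 51), ([2, 16, 14, 0], 51)]),
    ([0, 0, 0, 11], [([15, 0, 11, 0], 33), ([15, 0, 12, 0], 33), ([15, 2, 2, 0], 33), ([15, 2, 14, 0], 33), ([15, 8, 11, 0], 33), ([15, 8, 12, 0], 33), ([15, 11, 0, 0], 33), ([15, 11, 8, 0], 33), ([15, 11, 15, 0], 33), ([15, 11, 16, 0], 33), ([15, 12, 0, 0], 33), ([15, 12, 8, 0], 33), ([15, 12, 16, 0], 33), ([15, 14, 14, 0], 33), ([15, 16, 12, 0], 33)]),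
    ([0, 0, 0, 12], [([13, 0, 0, 0], 38), ([13, 0, 2, 0], 38), ([13, 0, 13, 0], 38), ([13, 0, 14, 0], 38), ([13, 2, 0, 0], 38), ([13, 2, 8, 0], 38), ([13, 2, 16, 0], 38), ([13, 4, 5, 0], 38), ([13, 8, 2, 0], 38), ([13, 8, 14, 0], 38), ([13, 13, 0, 0], 38), ([13, 13, 8, 0], 38), ([13, 13, 15, 0], 38), ([13, 13, 16, 0], 38), ([13, 14, 0, 0], 38), ([13, 15, 2, 0], 38), ([13, 15, 14, 0], 38), ([13, 16, 14, 0], 38)]),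
    ([0, 0, 0, 13], [([16, 0, 11, 0], 51), ([16, 0, 12, 0], 51), ([16, 12, 0, 0], 44), ([16, 12, 8, 0], 44), ([16, 12, 16, 0], 44), ([16, 14, 14, 0], 51)]),
    ([0, 0, 0, 14], [([11, 0, 0, 0], 42), ([11, 0, 8, 0], 51), ([11, 0, 15, 0], 51), ([11, 0, 16, 0], 51), ([11, 8, 0, 0], 42), ([11, 8, 8, 0], 51), ([11, 8, 16, 0], 51), ([11, 15, 0, 0], 42), ([11, 15, 8, 0], 51), ([11, 15, 16, 0], 51), ([11, 16, 0, 0], 42)]),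
    ([0, 0, 2, 0], [([0, 0, 0, 0], 50), ([0, 0, 2, 0], 50), ([0, 0, 11, 0], 40), ([0, 0, 12, 0], 45), ([0, 0, 13, 0], 50), ([0, 0, 14, 0], 50), ([0, 2, 0, 0], 50), ([0, 2, 2, 0], 50), ([0, 2, 14, 0], 50), ([0, 8, 11, 0], 40), ([0, 8, 12, 0], 45), ([0, 11, 0, 0], 43), ([0, 11, 8, 0], 43), ([0, 11, 15, 0], 43), ([0, 11, 16, 0], 43), ([0, 12, 0, 0], 44), ([0, 12, 8, 0], 44), ([0, 12, 16, 0], 44), ([0, 14, 0, 0], 50), ([0, 14, 14, 0], 50), ([0, 16, 12, 0], 45)]),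
    ([0, 0, 2, 2], [([2, 0, 0, 0], 56), ([2, 0, 2, 0], 97), ([2, 0, 13, 0], 97), ([2, 0, 14, 0], 97), ([2, 4, 5, 0], 97), ([2, 14, 0, 0], 97)]),
    ([0, 0, 2, 14], [([11, 0, 0, 0], 42), ([11, 0, 8, 0], 97), ([11, 0, 15, 0], 97), ([11, 0, 16, 0], 97), ([11, 8, 0, 0], 42), ([11, 8, 8, 0], 97), ([11, 8, 16, 0], 97), ([11, 16, 0, 0], 42)]),
    ([0, 0, 8, 11], [([15, 0, 11, 0], 33), ([15, 0, 12, 0], 33), ([15, 12, 0, 0], 33), ([15, 12, 8, 0], 33), ([15, 12, 16, 0], 33), ([15, 14, 14, 0], 33)]),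
    ([0, 0, 8, 12], [([13, 0, 0, 0], 38), ([13, 0, 2, 0], 38), ([13, 0, 13, 0], 38), ([13, 0, 14, 0], 38), ([13, 2, 0, 0], 38), ([13, 2, 8, 0], 38), ([13, 2, 16, 0], 38), ([13, 4, 5, 0], 38), ([13, 8, 2, 0], 38), ([13, 8, 14, 0], 38), ([13, 14, 0, 0], 38), ([13, 16, 14, 0], 38)]),
    ([0, 0, 11, 0], [([0, 0, 0, 0], 32), ([0, 0, 2, 0], 32), ([0, 0, 11, 0], 32), ([0, 0, 12, 0], 32), ([0, 0, 13, 0], 32), ([0, 0, 14, 0], 32), ([0, 2, 0, 0], 32), ([0, 2, 2, 0], 32), ([0, 2, 14, 0], 32), ([0, 8, 11, 0], 32), ([0, 8, 12, 0], 32), ([0, 11, 0, 0], 32), ([0, 11, 8, 0], 32), ([0, 11, 15, 0], 32), ([0, 11, 16, 0], 32), ([0, 12, 0, 0], 32), ([0, 12, 8, 0], 32), ([0, 12, 16, 0], 32), ([0, 13, 0, 0], 32), ([0, 13, 2, 0], 32), ([0, 13, 13, 0], 32), ([0, 13, 14, 0], 32), ([0, 14, 0, 0], 32), ([0, 14, 14, 0], 32), ([0, 15, 11,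 0], 32), ([0, 15, 12, 0], 32), ([0, 16, 12, 0], 32)]),
    ([0, 0, 11, 8], [([4, 5, 2, 0], 32), ([4, 5, 13, 0], 32), ([4, 5, 14, 0], 32)]),
    ([0, 0, 11, 15], [([14, 0, 0, 0], 32), ([14, 0, 2, 0], 32), ([14, 0, 13, 0], 32), ([14, 0, 14, 0], 32), ([14, 4, 5, 0], 32), ([14, 14, 0, 0], 32)]),
    ([0, 0, 11, 16], [([12, 0, 0, 0], 32), ([12, 0, 8, 0], 32), ([12, 0, 15, 0], 32), ([12, 0, 16, 0], 32), ([12, 8, 0, 0], 32), ([12, 8, 8, 0], 32), ([12, 8, 16, 0], 32), ([12, 16, 0, 0], 32)]),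
    ([0, 0, 12, 0], [([0, 0, 0, 0], 37), ([0, 0, 2, 0], 37), ([0, 0, 11, 0], 37), ([0, 0, 12, 0], 37), ([0, 0, 13, 0], 37), ([0, 0, 14, 0], 37), ([0, 2, 0, 0], 37), ([0, 2, 2, 0], 37), ([0, 2, 14, 0], 37), ([0, 8, 11, 0], 37), ([0, 8, 12, 0], 37), ([0, 11, 0, 0], 37), ([0, 11, 8, 0], 37), ([0, 11, 15, 0], 37), ([0, 11, 16, 0], 37), ([0, 12, 0, 0], 37), ([0, 12, 8, 0], 37), ([0, 12, 16, 0], 37), ([0, 14, 0, 0], 37), ([0, 14, 14, 0], 37), ([0, 16, 12, 0], 37)]),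
    ([0, 0, 12, 8], [([4, 5, 2, 0], 37), ([4, 5, 13, 0], 37), ([4, 5, 14, 0], 37)]),
    ([0, 0, 12, 16], [([12, 0, 0, 0], 37), ([12, 0, 8, 0], 37), ([12, 0, 15, 0], 37), ([12, 0, 16, 0], 37)]),
    ([0, 0, 13, 0], [([0, 0, 0, 0], 50), ([0, 0, 2, 0], 50), ([0, 0, 11, 0], 40), ([0, 0, 12, 0], 45), ([0, 0, 13, 0], 50), ([0, 0, 14, 0], 50), ([0, 2, 0, 0], 50), ([0, 2, 2, 0], 50), ([0, 2, 14, 0], 50), ([0, 8, 11, 0], 40), ([0, 8, 12, 0], 45), ([0, 11, 0, 0], 43), ([0, 11, 8, 0], 43), ([0, 11, 15, 0], 43), ([0, 11, 16, 0], 43), ([0, 12, 0, 0], 44), ([0, 12, 8, 0], 44), ([0, 12, 16, 0], 44), ([0, 13, 0, 0], 50), ([0, 13, 2, 0], 50), ([0, 13, 13, 0], 50), ([0, 13, 14, 0], 50), ([0, 14, 0, 0], 50), ([0, 14, 14, 0], 50), ([0, 15, 11, 0], 40), ([0, 15, 12, 0], 45), ([0, 16, 12, 0], 45)]),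
    ([0, 0, 13, 2], [([2, 0, 0, 0], 56), ([2, 0, 2, 0], 97), ([2, 0, 13, 0], 97), ([2, 0, 14, 0], 97), ([2, 2, 0, 0], 97), ([2, 2, 8, 0], 97), ([2, 2, 16, 0], 97), ([2, 4, 5, 0], 97), ([2, 8, 2, 0], 97), ([2, 8, 14, 0], 97), ([2, 14, 0, 0], 97), ([2, 16, 14, 0], 97)]),
    ([0, 0, 13, 13], [([16, 0, 11, 0], 97), ([16, 0, 12, 0], 97), ([16, 12, 0, 0], 44), ([16, 12, 8, 0], 44), ([16, 12, 16, 0], 44), ([16, 14, 14, 0], 97)]),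
    ([0, 0, 13, 14], [([11, 0, 0, 0], 42), ([11, 0, 8, 0], 97), ([11, 0, 15, 0], 97), ([11, 0, 16, 0], 97), ([11, 8, 0, 0], 42), ([11, 8, 8, 0], 97), ([11, 8, 16, 0], 97), ([11, 15, 0, 0], 42), ([11, 15, 8, 0], 97), ([11, 15, 16, 0], 97), ([11, 16, 0, 0], 42)]),
    ([0, 0, 14, 0], [([0, 0, 0, 0], 50), ([0, 0, 2, 0], 50), ([0, 0, 11, 0], 40), ([0, 0, 12, 0], 45), ([0, 0, 13, 0], 50), ([0, 0, 14, 0], 50), ([0, 12, 0, 0], 44), ([0, 12, 8, 0], 44), ([0, 12, 16, 0], 44), ([0, 14, 0, 0], 50), ([0, 14, 14, 0], 50)]),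
    ([0, 0, 14, 14], [([11, 0, 0, 0], 42), ([11, 0, 8, 0], 97), ([11, 0, 15, 0], 97), ([11, 0, 16, 0], 97)]),
    ([0, 0, 15, 11], [([15, 0, 11, 0], 33), ([15, 0, 12, 0], 33), ([15, 12, 0, 0], 33), ([15, 12, 8, 0], 33), ([15, 12, 16, 0], 33), ([15, 14, 14, 0], 33)]),
    ([0, 0, 15, 12], [([13, 0, 0, 0], 38), ([13, 0, 2, 0], 38), ([13, 0, 13, 0], 38), ([13, 0, 14, 0], 38), ([13, 2, 0, 0], 38), ([13, 2, 8, 0], 38), ([13, 2, 16, 0], 38), ([13, 4, 5, 0], 38), ([13, 8, 2, 0], 38), ([13, 8, 14, 0], 38), ([13, 14, 0, 0], 38), ([13, 16, 14, 0], 38)]),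
    ([0, 0, 16, 12], [([13, 0, 0, 0], 38), ([13, 0, 2, 0], 38), ([13, 0, 13, 0], 38), ([13, 0, 14, 0], 38), ([13, 4, 5, 0], 38), ([13, 14, 0, 0], 38)]),
    ([0, 2, 0, 0], [([0, 0, 0, 0], 49), ([0, 0, 2, 0], 49), ([0, 0, 11, 0], 40), ([0, 0, 12, 0], 45), ([0, 0, 13, 0], 49), ([0, 2, 0, 0], 49), ([0, 2, 2, 0], 49), ([0, 8, 11, 0], 40), ([0, 8, 12, 0], 45), ([0, 11, 0, 0], 43), ([0, 11, 8, 0], 43), ([0, 11, 15, 0], 43), ([0, 12, 0, 0], 44), ([0, 12, 8, 0], 44), ([0, 13, 0, 0], 49), ([0, 13, 2, 0], 49), ([0, 13, 13, 0], 49), ([0, 14, 0, 0], 49), ([0, 15, 11, 0], 40), ([0, 15, 12, 0], 45), ([0, 16, 12, 0], 45)]),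
    ([0, 2, 0, 2], [([2, 0, 0, 0], 56), ([2, 0, 2, 0], 391), ([2, 0, 13, 0], 259), ([2, 2, 0, 0], 107), ([2, 2, 8, 0], 107), ([2, 4, 5, 0], 125), ([2, 8, 2, 0], 203), ([2, 14, 0, 0], 107)]),
    ([0, 2, 0, 13], [([16, 0, 11, 0], 369), ([16, 12, 0, 0], 44), ([16, 12, 8, 0], 44)]),
    ([0, 2, 0, 14], [([11, 0, 0, 0], 42), ([11, 0, 8, 0], 247), ([11, 0, 15, 0], 283), ([11, 8, 0, 0], 42), ([11, 8, 8, 0], 139), ([11, 15, 0, 0], 42), ([11, 15, 8, 0], 155), ([11, 16, 0, 0], 42)]),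
    ([0, 2, 2, 0], [([0, 0, 0, 0], 88), ([0, 0, 2, 0], 58), ([0, 0, 11, 0], 40), ([0, 0, 12, 0], 45), ([0, 0, 13, 0], 58), ([0, 2, 0, 0], 57), ([0, 2, 2, 0], 96), ([0, 8, 11, 0], 40), ([0, 8, 12, 0], 45), ([0, 11, 0, 0], 43), ([0, 11, 8, 0], 43), ([0, 11, 15, 0], 43), ([0, 12, 0, 0], 44), ([0, 12, 8, 0], 44), ([0, 14, 0, 0], 57), ([0, 16, 12, 0], 45)]),
    ([0, 2, 2, 8], [([4, 5, 2, 0], 96), ([4, 5, 13, 0], 96)]),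
    ([0, 2, 2, 16], [([12, 0, 0, 0], 47), ([12, 0, 8, 0], 96), ([12, 0, 15, 0], 96)]),
    ([0, 2, 4, 5], [([8, 0, 11, 0], 118), ([8, 0, 12, 0], 118), ([8, 2, 2, 0], 108), ([8, 8, 11, 0], 118), ([8, 8, 12, 0], 118), ([8, 11, 0, 0], 43), ([8, 11, 8, 0], 43), ([8, 11, 15, 0], 43), ([8, 12, 0, 0], 44), ([8, 12, 8, 0], 44), ([8, 16, 12, 0], 118)]),
    ([0, 2, 8, 2], [([2, 0, 0, 0], 56), ([2, 0, 2, 0], 192), ([2, 0, 13, 0], 192), ([2, 4, 5, 0], 125), ([2, 14, 0, 0], 107)]),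
    ([0, 2, 8, 14], [([11, 0, 0, 0], 42), ([11, 0, 8, 0], 192), ([11, 0, 15, 0], 192), ([11, 8, 0, 0], 42), ([11, 8, 8, 0], 139), ([11, 16, 0, 0], 42)]),
    ([0, 2, 14, 0], [([0, 0, 0, 0], 88), ([0, 0, 2, 0], 58), ([0, 0, 11, 0], 40), ([0, 0, 12, 0], 45), ([0, 0, 13, 0], 58), ([0, 12, 0, 0], 44), ([0, 12, 8, 0], 44), ([0, 14, 0, 0], 57)]),
    ([0, 2, 16, 14], [([11, 0, 0, 0], 42), ([11, 0, 8, 0], 213), ([11, 0, 15, 0], 213)]),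
    ([0, 4, 5, 2], [([2, 0, 0, 0], 56), ([2, 0, 2, 0], 115), ([2, 0, 13, 0], 115), ([2, 0, 14, 0], 115), ([2, 2, 0, 0], 107), ([2, 2, 8, 0], 107), ([2, 2, 16, 0], 107), ([2, 4, 5, 0], 115), ([2, 8, 2, 0], 115), ([2, 8, 14, 0], 115), ([2, 14, 0, 0], 107), ([2, 16, 14, 0], 115)]),
    ([0, 4, 5, 13], [([16, 0, 11, 0], 115), ([16, 0, 12, 0], 115), ([16, 12, 0, 0], 44), ([16, 12, 8, 0], 44), ([16, 12, 16, 0], 44), ([16, 14, 14, 0], 108)]),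
    ([0, 4, 5, 14], [([11, 0, 0, 0], 42), ([11, 0, 8, 0], 115), ([11, 0, 15, 0], 115), ([11, 0, 16, 0], 115), ([11, 8, 0, 0], 42), ([11, 8, 8, 0], 115), ([11, 8, 16, 0], 115), ([11, 15, 0, 0], 42), ([11, 15, 8, 0], 115), ([11, 15, 16, 0], 115), ([11, 16, 0, 0], 42)]),
    ([0, 8, 0, 11], [([15, 0, 11, 0], 234), ([15, 2, 2, 0], 108), ([15, 8, 11, 0], 140), ([15, 8, 12, 0], 140), ([15, 11, 0, 0], 43), ([15, 11, 8, 0], 43), ([15, 11, 15, 0], 43), ([15, 12, 0, 0], 44), ([15, 12, 8, 0], 44), ([15, 16, 12, 0], 156)]),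
    ([0, 8, 0, 12], [([13, 0, 0, 0], 56), ([13, 0, 2, 0], 249), ([13, 0, 13, 0], 293), ([13, 2, 0, 0], 107), ([13, 2, 8, 0], 107), ([13, 4, 5, 0], 125), ([13, 8, 2, 0], 203), ([13, 13, 0, 0], 107), ([13, 13, 8, 0], 107), ([13, 13, 15, 0], 107), ([13, 14, 0, 0], 107), ([13, 15, 2, 0], 219)]),
    ([0, 8, 2, 2], [([2, 0, 0, 0], 56), ([2, 0, 2, 0], 101), ([2, 0, 13, 0], 101), ([2, 4, 5, 0], 101), ([2, 14, 0, 0], 101)]),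
    ([0, 8, 2, 14], [([11, 0, 0, 0], 42), ([11, 0, 8, 0], 101), ([11, 0, 15, 0], 101), ([11, 8, 0, 0], 42), ([11, 8, 8, 0], 101), ([11, 16, 0, 0], 42)]),
    ([0, 8, 8, 11], [([15, 0, 11, 0], 133), ([15, 0, 12, 0], 133), ([15, 12, 0, 0], 44), ([15, 12, 8, 0], 44)]),
    ([0, 8, 8, 12], [([13, 0, 0, 0], 56), ([13, 0, 2, 0], 133), ([13, 0, 13, 0], 133), ([13, 2, 0, 0], 107), ([13, 2, 8, 0], 107), ([13, 4, 5, 0], 125), ([13, 8, 2, 0], 133), ([13, 14, 0, 0], 107)]),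
    ([0, 8, 11, 0], [([0, 0, 0, 0], 32), ([0, 0, 2, 0], 32), ([0, 0, 11, 0], 32), ([0, 0, 12, 0], 32), ([0, 0, 13, 0], 32), ([0, 2, 0, 0], 32), ([0, 2, 2, 0], 32), ([0, 8, 11, 0], 32), ([0, 8, 12, 0], 32), ([0, 11, 0, 0], 32), ([0, 11, 8, 0], 32), ([0, 11, 15, 0], 32), ([0, 12, 0, 0], 32), ([0, 12, 8, 0], 32), ([0, 13, 0, 0], 32), ([0, 13, 2, 0], 32), ([0, 13, 13, 0], 32), ([0, 14, 0, 0], 32), ([0, 15, 11, 0], 32), ([0, 15, 12, 0], 32), ([0, 16, 12, 0], 32)]),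
    ([0, 8, 11, 8], [([4, 5, 2, 0], 32), ([4, 5, 13, 0], 32)]),
    ([0, 8, 11, 15], [([14, 0, 0, 0], 32), ([14, 0, 2, 0], 32), ([14, 0, 13, 0], 32), ([14, 4, 5, 0], 32), ([14, 14, 0, 0], 32)]),
    ([0, 8, 11, 16], [([12, 0, 0, 0], 32), ([12, 0, 8, 0], 32), ([12, 0, 15, 0], 32), ([12, 8, 0, 0], 32), ([12, 8, 8, 0], 32), ([12, 16, 0, 0], 32)]),
    ([0, 8, 12, 0], [([0, 0, 0, 0], 37), ([0, 0, 2, 0], 37), ([0, 0, 11, 0], 37), ([0, 0, 12, 0], 37), ([0, 0, 13, 0], 37), ([0, 2, 0, 0], 37), ([0, 2, 2, 0], 37), ([0, 8, 11, 0], 37), ([0, 8, 12, 0], 37), ([0, 11, 0, 0], 37), ([0, 11, 8, 0], 37), ([0, 11, 15, 0], 37), ([0, 12, 0, 0], 37), ([0, 12, 8, 0], 37), ([0, 14, 0, 0], 37), ([0, 16, 12, 0], 37)]),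
    ([0, 8, 12, 8], [([4, 5, 2, 0], 37), ([4, 5, 13, 0], 37)]),
    ([0, 8, 12, 16], [([12, 0, 0, 0], 37), ([12, 0, 8, 0], 37), ([12, 0, 15, 0], 37)]),
    ([0, 8, 14, 14], [([11, 0, 0, 0], 42), ([11, 0, 8, 0], 101), ([11, 0, 15, 0], 101)]),
    ([0, 8, 16, 12], [([13, 0, 0, 0], 56), ([13, 0, 2, 0], 149), ([13, 0, 13, 0], 149), ([13, 4, 5, 0], 125), ([13, 14, 0, 0], 107)]),
    ([0, 11, 0, 0], [([0, 0, 0, 0], 35), ([0, 0, 2, 0], 35), ([0, 0, 11, 0], 35), ([0, 0, 12, 0], 35), ([0, 0, 13, 0], 35), ([0, 2, 0, 0], 35), ([0, 2, 2, 0], 35), ([0, 8, 11, 0], 35), ([0, 8, 12, 0], 35), ([0, 11, 0, 0], 35), ([0, 11, 8, 0], 35), ([0, 11, 15, 0], 35), ([0, 12, 0, 0], 35), ([0, 12, 8, 0], 35), ([0, 13, 0, 0], 35), ([0, 13, 2, 0], 35), ([0, 13, 13, 0], 35), ([0, 14, 0, 0], 35), ([0, 15, 11, 0], 35), ([0, 15, 12, 0], 35), ([0,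 16, 12, 0], 35)]),
    ([0, 11, 0, 8], [([4, 5, 2, 0], 122), ([4, 5, 13, 0], 122)]),
    ([0, 11, 0, 15], [([14, 0, 0, 0], 56), ([14, 0, 13, 0], 316), ([14, 4, 5, 0], 125), ([14, 14, 0, 0], 107)]),
    ([0, 11, 0, 16], [([12, 0, 0, 0], 47), ([12, 0, 15, 0], 327), ([12, 8, 0, 0], 47), ([12, 8, 8, 0], 139), ([12, 16, 0, 0], 47)]),
    ([0, 11, 8, 0], [([0, 0, 0, 0], 35), ([0, 0, 2, 0], 35), ([0, 0, 11, 0], 35), ([0, 0, 12, 0], 35), ([0, 0, 13, 0], 35), ([0, 2, 0, 0], 35), ([0, 2, 2, 0], 35), ([0, 8, 11, 0], 35), ([0, 8, 12, 0], 35), ([0, 11, 0, 0], 35), ([0, 11, 8, 0], 35), ([0, 11, 15, 0], 35), ([0, 12, 0, 0], 35), ([0, 12, 8, 0], 35), ([0, 14, 0, 0], 35), ([0, 16, 12, 0], 35)]),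
    ([0, 11, 8, 8], [([4, 5, 2, 0], 122), ([4, 5, 13, 0], 122)]),
    ([0, 11, 8, 16], [([12, 0, 0, 0], 47), ([12, 0, 8, 0], 128), ([12, 0, 15, 0], 128)]),
    ([0, 11, 15, 0], [([0, 0, 0, 0], 35), ([0, 0, 2, 0], 35), ([0, 0, 11, 0], 35), ([0, 0, 12, 0], 35), ([0, 0, 13, 0], 35), ([0, 2, 0, 0], 35), ([0, 2, 2, 0], 35), ([0, 8, 11, 0], 35), ([0, 8, 12, 0], 35), ([0, 11, 0, 0], 35), ([0, 11, 8, 0], 35), ([0, 11, 15, 0], 35), ([0, 12, 0, 0], 35), ([0, 12, 8, 0], 35), ([0, 14, 0, 0], 35), ([0, 16, 12, 0], 35)]),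
    ([0, 11, 15, 8], [([4, 5, 2, 0], 122), ([4, 5, 13, 0], 122)]),
    ([0, 11, 15, 16], [([12, 0, 0, 0], 47), ([12, 0, 8, 0], 144), ([12, 0, 15, 0], 144)]),
    ([0, 11, 16, 0], [([0, 0, 0, 0], 35), ([0, 0, 2, 0], 35), ([0, 0, 11, 0], 35), ([0, 0, 12, 0], 35), ([0, 0, 13, 0], 35), ([0, 12, 0, 0], 35), ([0, 12, 8, 0], 35), ([0, 14, 0, 0], 35)]),
    ([0, 12, 0, 0], [([0, 0, 0, 0], 36), ([0, 0, 2, 0], 36), ([0, 0, 11, 0], 36), ([0, 0, 12, 0], 36), ([0, 0, 13, 0], 36), ([0, 0, 14, 0], 36), ([0, 2, 0, 0], 36), ([0, 2, 2, 0], 36), ([0, 2, 14, 0], 36), ([0, 8, 11, 0], 36), ([0, 8, 12, 0], 36), ([0, 11, 0, 0], 36), ([0, 11, 8, 0], 36), ([0, 11, 15, 0], 36), ([0, 11, 16, 0], 36), ([0, 12, 0, 0], 36), ([0, 12, 8, 0], 36), ([0, 12, 16, 0], 36), ([0, 13, 0, 0], 36), ([0, 13, 2, 0], 36), ([0, 13, 13, 0], 36), ([0, 13,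 14, 0], 36), ([0, 14, 0, 0], 36), ([0, 14, 14, 0], 36), ([0, 15, 11, 0], 36), ([0, 15, 12, 0], 36), ([0, 16, 12, 0], 36)]),
    ([0, 12, 0, 8], [([4, 5, 2, 0], 122), ([4, 5, 13, 0], 122), ([4, 5, 14, 0], 122)]),
    ([0, 12, 0, 15], [([14, 0, 0, 0], 56), ([14, 0, 2, 0], 383), ([14, 0, 13, 0], 316), ([14, 4, 5, 0], 125), ([14, 14, 0, 0], 107)]),
    ([0, 12, 0, 16], [([12, 0, 0, 0], 47), ([12, 0, 8, 0], 230), ([12, 0, 15, 0], 327), ([12, 0, 16, 0], 350), ([12, 8, 0, 0], 47), ([12, 8, 8, 0], 139), ([12, 8, 16, 0], 139), ([12, 16, 0, 0], 47)]),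
    ([0, 12, 8, 0], [([0, 0, 0, 0], 36), ([0, 0, 2, 0], 36), ([0, 0, 11, 0], 36), ([0, 0, 12, 0], 36), ([0, 0, 13, 0], 36), ([0, 0, 14, 0], 36), ([0, 2, 0, 0], 36), ([0, 2, 2, 0], 36), ([0, 2, 14, 0], 36), ([0, 8, 11, 0], 36), ([0, 8, 12, 0], 36), ([0, 11, 0, 0], 36), ([0, 11, 8, 0], 36), ([0, 11, 15, 0], 36), ([0, 11, 16, 0], 36), ([0, 12, 0, 0], 36), ([0, 12, 8, 0], 36), ([0, 12, 16, 0], 36), ([0, 14, 0, 0], 36), ([0, 14, 14, 0], 36), ([0, 16, 12, 0], 36)]),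
    ([0, 12, 8, 8], [([4, 5, 2, 0], 122), ([4, 5, 13, 0], 122), ([4, 5, 14, 0], 122)]),
    ([0, 12, 8, 16], [([12, 0, 0, 0], 47), ([12, 0, 8, 0], 128), ([12, 0, 15, 0], 128), ([12, 0, 16, 0], 128)]),
    ([0, 12, 16, 0], [([0, 0, 0, 0], 36), ([0, 0, 2, 0], 36), ([0, 0, 11, 0], 36), ([0, 0, 12, 0], 36), ([0, 0, 13, 0], 36), ([0, 0, 14, 0], 36), ([0, 12, 0, 0], 36), ([0, 12, 8, 0], 36), ([0, 12, 16, 0], 36), ([0, 14, 0, 0], 36), ([0, 14, 14, 0], 36)]),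
    ([0, 13, 0, 0], [([0, 0, 0, 0], 49), ([0, 0, 11, 0], 40), ([0, 0, 13, 0], 49), ([0, 2, 0, 0], 49), ([0, 8, 11, 0], 40), ([0, 11, 0, 0], 43), ([0, 12, 0, 0], 44), ([0, 13, 0, 0], 49), ([0, 13, 13, 0], 49), ([0, 14, 0, 0], 49), ([0, 15, 11, 0], 40)]),
    ([0, 13, 0, 2], [([2, 0, 0, 0], 56), ([2, 0, 13, 0], 259), ([2, 2, 0, 0], 107), ([2, 4, 5, 0], 125), ([2, 14, 0, 0], 107)]),
    ([0, 13, 0, 13], [([16, 12, 0, 0], 44)]),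
    ([0, 13, 0, 14], [([11, 0, 0, 0], 42), ([11, 8, 0, 0], 42), ([11, 15, 0, 0], 42), ([11, 16, 0, 0], 42)]),
    ([0, 13, 2, 0], [([0, 0, 0, 0], 88), ([0, 0, 11, 0], 40), ([0, 0, 13, 0], 58), ([0, 2, 0, 0], 57), ([0, 8, 11, 0], 40), ([0, 11, 0, 0], 43), ([0, 12, 0, 0], 44), ([0, 14, 0, 0], 57)]),
    ([0, 13, 2, 8], [([4, 5, 13, 0], 96)]),
    ([0, 13, 2, 16], [([12, 0, 0, 0], 47)]),
    ([0, 13, 4, 5], [([8, 0, 11, 0], 118), ([8, 8, 11, 0], 118), ([8, 11, 0, 0], 43), ([8, 12, 0, 0], 44)]),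
    ([0, 13, 8, 2], [([2, 0, 0, 0], 56), ([2, 0, 13, 0], 192), ([2, 4, 5, 0], 125), ([2, 14, 0, 0], 107)]),
    ([0, 13, 8, 14], [([11, 0, 0, 0], 42), ([11, 8, 0, 0], 42), ([11, 16, 0, 0], 42)]),
    ([0, 13, 13, 0], [([0, 0, 0, 0], 88), ([0, 0, 11, 0], 40), ([0, 0, 13, 0], 58), ([0, 2, 0, 0], 57), ([0, 8, 11, 0], 40), ([0, 11, 0, 0], 43), ([0, 12, 0, 0], 44), ([0, 13, 0, 0], 57), ([0, 13, 13, 0], 96), ([0, 14, 0, 0], 57), ([0, 15, 11, 0], 40)]),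
    ([0, 13, 13, 8], [([4, 5, 13, 0], 96)]),
    ([0, 13, 13, 15], [([14, 0, 0, 0], 56), ([14, 0, 13, 0], 96), ([14, 4, 5, 0], 96), ([14, 14, 0, 0], 96)]),
    ([0, 13, 13, 16], [([12, 0, 0, 0], 47), ([12, 8, 0, 0], 47), ([12, 16, 0, 0], 47)]),
    ([0, 13, 14, 0], [([0, 0, 0, 0], 88), ([0, 0, 11, 0], 40), ([0, 0, 13, 0], 58), ([0, 12, 0, 0], 44), ([0, 14, 0, 0], 57)]),
    ([0, 13, 15, 2], [([2, 0, 0, 0], 56), ([2, 0, 13, 0], 208), ([2, 4, 5, 0], 125), ([2, 14, 0, 0], 107)]),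
    ([0, 13, 15, 14], [([11, 0, 0, 0], 42), ([11, 8, 0, 0], 42), ([11, 16, 0, 0], 42)]),
    ([0, 13, 16, 14], [([11, 0, 0, 0], 42)]),
    ([0, 14, 0, 0], [([0, 0, 0, 0], 49), ([0, 0, 2, 0], 49), ([0, 0, 11, 0], 40), ([0, 0, 12, 0], 45), ([0, 0, 13, 0], 49), ([0, 0, 14, 0], 49), ([0, 2, 0, 0], 49), ([0, 2, 2, 0], 49), ([0, 2, 14, 0], 49), ([0, 8, 11, 0], 40), ([0, 8, 12, 0], 45), ([0, 11, 0, 0], 43), ([0, 11, 8, 0], 43), ([0, 11, 15, 0], 43), ([0, 11, 16, 0], 43), ([0, 12, 0, 0], 44), ([0, 12, 8, 0], 44), ([0, 12, 16, 0], 44), ([0, 13, 0, 0], 49), ([0, 13, 2, 0], 49), ([0, 13, 13, 0], 49), ([0, 13, 14, 0], 49), ([0, 14, 0, 0], 49), ([0, 14, 14, 0], 49), ([0, 15, 11, 0], 40), ([0, 15, 12, 0], 45), ([0, 16, 12, 0], 45)]),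
    ([0, 14, 0, 2], [([2, 0, 0, 0], 56), ([2, 0, 2, 0], 269), ([2, 0, 13, 0], 259), ([2, 0, 14, 0], 269), ([2, 2, 0, 0], 107), ([2, 2, 8, 0], 107), ([2, 2, 16, 0], 107), ([2, 4, 5, 0], 125), ([2, 8, 2, 0], 203), ([2, 8, 14, 0], 203), ([2, 14, 0, 0], 107), ([2, 16, 14, 0], 220)]),
    ([0, 14, 0, 13], [([16, 0, 11, 0], 304), ([16, 0, 12, 0], 304), ([16, 12, 0, 0], 44), ([16, 12, 8, 0], 44), ([16, 12, 16, 0], 44), ([16, 14, 14, 0], 108)]),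
    ([0, 14, 0, 14], [([11, 0, 0, 0], 42), ([11, 0, 8, 0], 299), ([11, 0, 15, 0], 283), ([11, 0, 16, 0], 299), ([11, 8, 0, 0], 42), ([11, 8, 8, 0], 139), ([11, 8, 16, 0], 139), ([11, 15, 0, 0], 42), ([11, 15, 8, 0], 155), ([11, 15, 16, 0], 155), ([11, 16, 0, 0], 42)]),
    ([0, 14, 4, 5], [([8, 0, 11, 0], 118), ([8, 0, 12, 0], 118), ([8, 2, 2, 0], 108), ([8, 2, 14, 0], 108), ([8, 8, 11, 0], 118), ([8, 8, 12, 0], 118), ([8, 11, 0, 0], 43), ([8, 11, 8, 0], 43), ([8, 11, 15, 0], 43), ([8, 11, 16, 0], 43), ([8, 12, 0, 0], 44), ([8, 12, 8, 0], 44), ([8, 12, 16, 0], 44), ([8, 14, 14, 0], 108), ([8, 16, 12, 0], 118)]),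
    ([0, 14, 14, 0], [([0, 0, 0, 0], 88), ([0, 0, 2, 0], 58), ([0, 0, 11, 0], 40), ([0, 0, 12, 0], 45), ([0, 0, 13, 0], 58), ([0, 0, 14, 0], 58), ([0, 12, 0, 0], 44), ([0, 12, 8, 0], 44), ([0, 12, 16, 0], 44), ([0, 14, 0, 0], 57), ([0, 14, 14, 0], 96)]),
    ([0, 15, 0, 11], [([15, 0, 11, 0], 338), ([15, 8, 11, 0], 140), ([15, 11, 0, 0], 43), ([15, 12, 0, 0], 44)]),
    ([0, 15, 0, 12], [([13, 0, 0, 0], 56), ([13, 0, 13, 0], 293), ([13, 2, 0, 0], 107), ([13, 4, 5, 0], 125), ([13, 13, 0, 0], 107), ([13, 14, 0, 0], 107)]),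
    ([0, 15, 2, 2], [([2, 0, 0, 0], 56), ([2, 0, 13, 0], 101), ([2, 4, 5, 0], 101), ([2, 14, 0, 0], 101)]),
    ([0, 15, 2, 14], [([11, 0, 0, 0], 42), ([11, 8, 0, 0], 42), ([11, 16, 0, 0], 42)]),
    ([0, 15, 8, 11], [([15, 0, 11, 0], 133), ([15, 12, 0, 0], 44)]),
    ([0, 15, 8, 12], [([13, 0, 0, 0], 56), ([13, 0, 13, 0], 133), ([13, 2, 0, 0], 107), ([13, 4, 5, 0], 125), ([13, 14, 0, 0], 107)]),
    ([0, 15, 11, 0], [([0, 0, 0, 0], 32), ([0, 0, 11, 0], 32), ([0, 0, 13, 0], 32), ([0, 2, 0, 0], 32), ([0, 8, 11, 0], 32), ([0, 11, 0, 0], 32), ([0, 12, 0, 0], 32), ([0, 13, 0, 0], 32), ([0, 13, 13, 0], 32), ([0, 14, 0, 0], 32), ([0, 15, 11, 0], 32)]),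
    ([0, 15, 11, 8], [([4, 5, 13, 0], 32)]),
    ([0, 15, 11, 15], [([14, 0, 0, 0], 32), ([14, 0, 13, 0], 32), ([14, 4, 5, 0], 32), ([14, 14, 0, 0], 32)]),
    ([0, 15, 11, 16], [([12, 0, 0, 0], 32), ([12, 8, 0, 0], 32), ([12, 16, 0, 0], 32)]),
    ([0, 15, 12, 0], [([0, 0, 0, 0], 37), ([0, 0, 11, 0], 37), ([0, 0, 13, 0], 37), ([0, 2, 0, 0], 37), ([0, 8, 11, 0], 37), ([0, 11, 0, 0], 37), ([0, 12, 0, 0], 37), ([0, 14, 0, 0], 37)]),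
    ([0, 15, 12, 8], [([4, 5, 13, 0], 37)]),
    ([0, 15, 12, 16], [([12, 0, 0, 0], 37)]),
    ([0, 15, 14, 14], [([11, 0, 0, 0], 42)]),
    ([0, 15, 16, 12], [([13, 0, 0, 0], 56), ([13, 0, 13, 0], 149), ([13, 4, 5, 0], 125), ([13, 14, 0, 0], 107)]),
    ([0, 16, 0, 11], [([15, 0, 11, 0], 329), ([15, 0, 12, 0], 329), ([15, 2, 2, 0], 108), ([15, 8, 11, 0], 140), ([15, 8, 12, 0], 140), ([15, 11, 0, 0], 43), ([15, 11, 8, 0], 43), ([15, 11, 15, 0], 43), ([15, 12, 0, 0], 44), ([15, 12, 8, 0], 44), ([15, 16, 12, 0], 156)]),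
    ([0, 16, 0, 12], [([13, 0, 0, 0], 56), ([13, 0, 2, 0], 277), ([13, 0, 13, 0], 277), ([13, 2, 0, 0], 107), ([13, 2, 8, 0], 107), ([13, 4, 5, 0], 125), ([13, 8, 2, 0], 203), ([13, 13, 0, 0], 107), ([13, 13, 8, 0], 107), ([13, 13, 15, 0], 107), ([13, 14, 0, 0], 107), ([13, 15, 2, 0], 219)]),
    ([0, 16, 12, 0], [([0, 0, 0, 0], 37), ([0, 0, 2, 0], 37), ([0, 0, 11, 0], 37), ([0, 0, 12, 0], 37), ([0, 0, 13, 0], 37), ([0, 2, 0, 0], 37), ([0, 2, 2, 0], 37), ([0, 8, 11, 0], 37), ([0, 8, 12, 0], 37), ([0, 11, 0, 0], 37), ([0, 11, 8, 0], 37), ([0, 11, 15, 0], 37), ([0, 12, 0, 0], 37), ([0, 12, 8, 0], 37), ([0, 14, 0, 0], 37), ([0, 16, 12, 0], 37)]),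
    ([0, 16, 12, 8], [([4, 5, 2, 0], 37), ([4, 5, 13, 0], 37)]),
    ([0, 16, 12, 16], [([12, 0, 0, 0], 37), ([12, 0, 8, 0], 37), ([12, 0, 15, 0], 37)]),
    ([0, 16, 14, 14], [([11, 0, 0, 0], 42), ([11, 0, 8, 0], 101), ([11, 0, 15, 0], 101)]),
    ([2, 0, 0, 0], [([0, 0, 0, 2], 48), ([0, 0, 2, 2], 48), ([0, 0, 13, 2], 48), ([0, 2, 0, 2], 48), ([0, 2, 8, 2], 48), ([0, 4, 5, 2], 48), ([0, 8, 2, 2], 48), ([0, 13, 0, 2], 48), ([0, 13, 8, 2], 48), ([0, 13, 15, 2], 48), ([0, 14, 0, 2], 48), ([0, 15, 2, 2], 48)]),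
    ([2, 0, 0, 2], [([2, 0, 0, 2], 98), ([2, 0, 8, 2], 98), ([2, 0, 15, 2], 98), ([2, 8, 0, 2], 98), ([2, 8, 8, 2], 98), ([2, 16, 0, 2], 98)]),
    ([2, 0, 0, 13], [([16, 0, 2, 2], 98), ([16, 0, 13, 2], 98), ([16, 4, 5, 2], 98), ([16, 14, 0, 2], 98)]),
    ([2, 0, 2, 0], [([0, 0, 0, 2], 59), ([0, 0, 2, 2], 105), ([0, 0, 13, 2], 105), ([0, 2, 0, 2], 385), ([0, 2, 8, 2], 200), ([0, 4, 5, 2], 123), ([0, 8, 2, 2], 109), ([0, 14, 0, 2], 261)]),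
    ([2, 0, 2, 8], [([4, 5, 0, 2], 124), ([4, 5, 8, 2], 124), ([4, 5, 15, 2], 124)]),
    ([2, 0, 4, 5], [([8, 0, 2, 2], 105), ([8, 0, 13, 2], 105), ([8, 2, 0, 2], 112), ([8, 2, 8, 2], 112), ([8, 4, 5, 2], 112), ([8, 8, 2, 2], 112), ([8, 14, 0, 2], 112)]),
    ([2, 0, 8, 2], [([2, 0, 0, 2], 102), ([2, 0, 8, 2], 102), ([2, 0, 15, 2], 102)]),
    ([2, 0, 13, 0], [([0, 0, 0, 2], 59), ([0, 0, 2, 2], 105), ([0, 0, 13, 2], 105), ([0, 2, 0, 2], 267), ([0, 2, 8, 2], 200), ([0, 4, 5, 2], 123), ([0, 8, 2, 2], 109), ([0, 13, 0, 2], 267), ([0, 13, 8, 2], 200), ([0, 13, 15, 2], 216), ([0, 14, 0, 2], 261), ([0, 15, 2, 2], 109)]),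
    ([2, 0, 13, 8], [([4, 5, 0, 2], 124), ([4, 5, 8, 2], 124), ([4, 5, 15, 2], 124)]),
    ([2, 0, 13, 15], [([14, 0, 0, 2], 106), ([14, 0, 8, 2], 110), ([14, 0, 15, 2], 110)]),
    ([2, 0, 14, 0], [([0, 0, 0, 2], 59), ([0, 0, 2, 2], 105), ([0, 0, 13, 2], 105), ([0, 4, 5, 2], 123), ([0, 14, 0, 2], 261)]),
    ([2, 0, 15, 2], [([2, 0, 0, 2], 102), ([2, 0, 8, 2], 102), ([2, 0, 15, 2], 102)]),
    ([2, 2, 0, 0], [([0, 0, 0, 2], 59), ([0, 0, 13, 2], 99), ([0, 2, 0, 2], 99), ([0, 4, 5, 2], 99), ([0, 13, 0, 2], 99), ([0, 14, 0, 2], 99)]),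
    ([2, 2, 0, 8], [([4, 5, 0, 2], 103)]),
    ([2, 2, 0, 15], [([14, 0, 0, 2], 103)]),
    ([2, 2, 8, 0], [([0, 0, 0, 2], 59), ([0, 0, 13, 2], 99), ([0, 2, 0, 2], 99), ([0, 4, 5, 2], 99), ([0, 14, 0, 2], 99)]),
    ([2, 2, 8, 8], [([4, 5, 0, 2], 124)]),
    ([2, 2, 16, 0], [([0, 0, 0, 2], 59), ([0, 0, 13, 2], 99), ([0, 4, 5, 2], 99), ([0, 14, 0, 2], 99)]),
    ([2, 4, 5, 0], [([0, 0, 0, 2], 59), ([0, 0, 2, 2], 105), ([0, 0, 13, 2], 105), ([0, 2, 0, 2], 117), ([0, 2, 8, 2], 117), ([0, 4, 5, 2], 117), ([0, 8, 2, 2], 109), ([0, 13, 0, 2], 117), ([0, 13, 8, 2], 117), ([0, 13, 15, 2], 117), ([0, 14, 0, 2], 117), ([0, 15, 2, 2], 109)]),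
    ([2, 4, 5, 8], [([4, 5, 0, 2], 117), ([4, 5, 8, 2], 117), ([4, 5, 15, 2], 117)]),
    ([2, 4, 5, 15], [([14, 0, 0, 2], 106), ([14, 0, 8, 2], 110), ([14, 0, 15, 2], 110)]),
    ([2, 8, 0, 2], [([2, 0, 0, 2], 98), ([2, 8, 0, 2], 98), ([2, 16, 0, 2], 98)]),
    ([2, 8, 0, 13], [([16, 0, 13, 2], 98), ([16, 4, 5, 2], 98), ([16, 14, 0, 2], 98)]),
    ([2, 8, 2, 0], [([0, 0, 0, 2], 59), ([0, 0, 13, 2], 105), ([0, 2, 0, 2], 195), ([0, 4, 5, 2], 123), ([0, 14, 0, 2], 195)]),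
    ([2, 8, 2, 8], [([4, 5, 0, 2], 124)]),
    ([2, 8, 4, 5], [([8, 0, 13, 2], 105), ([8, 2, 0, 2], 112), ([8, 4, 5, 2], 112), ([8, 14, 0, 2], 112)]),
    ([2, 8, 8, 2], [([2, 0, 0, 2], 106)]),
    ([2, 8, 14, 0], [([0, 0, 0, 2], 59), ([0, 0, 13, 2], 105), ([0, 4, 5, 2], 123), ([0, 14, 0, 2], 195)]),
    ([2, 14, 0, 0], [([0, 0, 0, 2], 59), ([0, 0, 2, 2], 99), ([0, 0, 13, 2], 99), ([0, 2, 0, 2], 99), ([0, 2, 8, 2], 99), ([0, 4, 5, 2], 99), ([0, 8, 2, 2], 99), ([0, 13, 0, 2], 99), ([0, 13, 8, 2], 99), ([0, 13, 15, 2], 99), ([0, 14, 0, 2], 99), ([0, 15, 2, 2], 99)]),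
    ([2, 14, 0, 8], [([4, 5, 0, 2], 103), ([4, 5, 8, 2], 103), ([4, 5, 15, 2], 103)]),
    ([2, 14, 0, 15], [([14, 0, 0, 2], 103), ([14, 0, 8, 2], 103), ([14, 0, 15, 2], 103)]),
    ([2, 16, 0, 2], [([2, 0, 0, 2], 98), ([2, 8, 0, 2], 98), ([2, 16, 0, 2], 98)]),
    ([2, 16, 0, 13], [([16, 0, 13, 2], 98), ([16, 4, 5, 2], 98), ([16, 14, 0, 2], 98)]),
    ([2, 16, 4, 5], [([8, 0, 13, 2], 105), ([8, 2, 0, 2], 112), ([8, 4, 5, 2], 112), ([8, 14, 0, 2], 112)]),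
    ([2, 16, 14, 0], [([0, 0, 0, 2], 59), ([0, 0, 13, 2], 105), ([0, 4, 5, 2], 123), ([0, 14, 0, 2], 212)]),
    ([4, 5, 0, 2], [([2, 0, 2, 8], 116), ([2, 0, 13, 8], 116), ([2, 2, 0, 8], 111), ([2, 2, 8, 8], 116), ([2, 4, 5, 8], 116), ([2, 8, 2, 8], 116), ([2, 14, 0, 8], 111)]),
    ([4, 5, 0, 13], [([16, 0, 11, 8], 116), ([16, 0, 12, 8], 116), ([16, 12, 0, 8], 116), ([16, 12, 8, 8], 116)]),
    ([4, 5, 0, 14], [([11, 0, 0, 8], 42), ([11, 0, 8, 8], 116), ([11, 0, 15, 8], 116), ([11, 8, 0, 8], 42), ([11, 8, 8, 8], 116), ([11, 15, 0, 8], 42), ([11, 15, 8, 8], 116), ([11, 16, 0, 8], 42)]),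
    ([4, 5, 2, 0], [([0, 0, 11, 8], 40), ([0, 0, 12, 8], 45), ([0, 2, 2, 8], 104), ([0, 8, 11, 8], 40), ([0, 8, 12, 8], 45), ([0, 11, 0, 8], 114), ([0, 11, 8, 8], 114), ([0, 11, 15, 8], 114), ([0, 12, 0, 8], 114), ([0, 12, 8, 8], 114), ([0, 16, 12, 8], 45)]),
    ([4, 5, 2, 8], [([4, 5, 2, 8], 114), ([4, 5, 13, 8], 114)]),
    ([4, 5, 2, 16], [([12, 0, 0, 8], 47), ([12, 0, 8, 8], 114), ([12, 0, 15, 8], 114)]),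
    ([4, 5, 4, 5], [([8, 0, 11, 8], 64), ([8, 0, 12, 8], 64), ([8, 2, 2, 8], 64), ([8, 8, 11, 8], 64), ([8, 8, 12, 8], 64), ([8, 11, 0, 8], 64), ([8, 11, 8, 8], 64), ([8, 11, 15, 8], 64), ([8, 12, 0, 8], 64), ([8, 12, 8, 8], 64), ([8, 16, 12, 8], 64)]),
    ([4, 5, 8, 2], [([2, 0, 2, 8], 116), ([2, 0, 13, 8], 116), ([2, 4, 5, 8], 116), ([2, 14, 0, 8], 111)]),
    ([4, 5, 8, 14], [([11, 0, 0, 8], 42), ([11, 0, 8, 8], 116), ([11, 0, 15, 8], 116), ([11, 8, 0, 8], 42), ([11, 8, 8, 8], 116), ([11, 16, 0, 8], 42)]),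
    ([4, 5, 13, 0], [([0, 0, 11, 8], 40), ([0, 0, 12, 8], 45), ([0, 2, 2, 8], 104), ([0, 8, 11, 8], 40), ([0, 8, 12, 8], 45), ([0, 11, 0, 8], 114), ([0, 11, 8, 8], 114), ([0, 11, 15, 8], 114), ([0, 12, 0, 8], 114), ([0, 12, 8, 8], 114), ([0, 13, 2, 8], 104), ([0, 13, 13, 8], 104), ([0, 15, 11, 8], 40), ([0, 15, 12, 8], 45), ([0, 16, 12, 8], 45)]),
    ([4, 5, 13, 8], [([4, 5, 2, 8], 114), ([4, 5, 13, 8], 114)]),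
    ([4, 5, 13, 15], [([14, 0, 2, 8], 114), ([14, 0, 13, 8], 114), ([14, 4, 5, 8], 114), ([14, 14, 0, 8], 111)]),
    ([4, 5, 13, 16], [([12, 0, 0, 8], 47), ([12, 0, 8, 8], 114), ([12, 0, 15, 8], 114), ([12, 8, 0, 8], 47), ([12, 8, 8, 8], 114), ([12, 16, 0, 8], 47)]),
    ([4, 5, 14, 0], [([0, 0, 11, 8], 40), ([0, 0, 12, 8], 45), ([0, 12, 0, 8], 114), ([0, 12, 8, 8], 114)]),
    ([4, 5, 15, 2], [([2, 0, 2, 8], 116), ([2, 0, 13, 8], 116), ([2, 4, 5, 8], 116), ([2, 14, 0, 8], 111)]),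
    ([4, 5, 15, 14], [([11, 0, 0, 8], 42), ([11, 0, 8, 8], 116), ([11, 0, 15, 8], 116), ([11, 8, 0, 8], 42), ([11, 8, 8, 8], 116), ([11, 16, 0, 8], 42)]),
    ([4, 5, 16, 14], [([11, 0, 0, 8], 42), ([11, 0, 8, 8], 116), ([11, 0, 15, 8], 116)]),
    ([5, 0, 2, 4], [([5, 0, 2, 4], 119), ([5, 0, 13, 4], 119), ([5, 0, 14, 4], 119), ([5, 2, 0, 4], 119), ([5, 2, 8, 4], 119), ([5, 2, 16, 4], 119), ([5, 4, 5, 4], 73), ([5, 8, 2, 4], 119), ([5, 8, 14, 4], 119), ([5, 14, 0, 4], 119), ([5, 16, 14, 4], 119)]),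
    ([5, 0, 13, 4], [([5, 0, 2, 4], 119), ([5, 0, 13, 4], 119), ([5, 0, 14, 4], 119), ([5, 2, 0, 4], 119), ([5, 2, 8, 4], 119), ([5, 2, 16, 4], 119), ([5, 4, 5, 4], 73), ([5, 8, 2, 4], 119), ([5, 8, 14, 4], 119), ([5, 13, 0, 4], 119), ([5, 13, 8, 4], 119), ([5, 13, 15, 4], 119), ([5, 13, 16, 4], 119), ([5, 14, 0, 4], 119), ([5, 15, 2, 4], 119), ([5, 15, 14, 4], 119), ([5, 16, 14, 4], 119)]),
    ([5, 0, 14, 4], [([5, 0, 2, 4], 119), ([5, 0, 13, 4], 119), ([5, 0, 14, 4], 119), ([5, 4, 5, 4], 73), ([5, 14, 0, 4], 119)]),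
    ([5, 2, 0, 4], [([5, 0, 2, 4], 113), ([5, 0, 13, 4], 113), ([5, 2, 0, 4], 113), ([5, 2, 8, 4], 113), ([5, 4, 5, 4], 73), ([5, 8, 2, 4], 113), ([5, 13, 0, 4], 113), ([5, 13, 8, 4], 113), ([5, 13, 15, 4], 113), ([5, 14, 0, 4], 113), ([5, 15, 2, 4], 113)]),
    ([5, 2, 8, 4], [([5, 0, 2, 4], 113), ([5, 0, 13, 4], 113), ([5, 2, 0, 4], 113), ([5, 2, 8, 4], 113), ([5, 4, 5, 4], 73), ([5, 8, 2, 4], 113), ([5, 14, 0, 4], 113)]),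
    ([5, 2, 16, 4], [([5, 0, 2, 4], 113), ([5, 0, 13, 4], 113), ([5, 4, 5, 4], 73), ([5, 14, 0, 4], 113)]),
    ([5, 4, 5, 4], [([5, 0, 2, 4], 65), ([5, 0, 13, 4], 65), ([5, 0, 14, 4], 65), ([5, 2, 0, 4], 65), ([5, 2, 8, 4], 65), ([5, 2, 16, 4], 65), ([5, 4, 5, 4], 65), ([5, 8, 2, 4], 65), ([5, 8, 14, 4], 65), ([5, 13, 0, 4], 65), ([5, 13, 8, 4], 65), ([5, 13, 15, 4], 65), ([5, 13, 16, 4], 65), ([5, 14, 0, 4], 65), ([5, 15, 2, 4], 65), ([5, 15, 14, 4], 65), ([5, 16, 14, 4], 65)]),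
    ([5, 8, 2, 4], [([5, 0, 2, 4], 119), ([5, 0, 13, 4], 119), ([5, 2, 0, 4], 119), ([5, 2, 8, 4], 119), ([5, 4, 5, 4], 73), ([5, 8, 2, 4], 119), ([5, 14, 0, 4], 119)]),
    ([5, 8, 14, 4], [([5, 0, 2, 4], 119), ([5, 0, 13, 4], 119), ([5, 4, 5, 4], 73), ([5, 14, 0, 4], 119)]),
    ([5, 13, 0, 4], [([5, 0, 13, 4], 113), ([5, 2, 0, 4], 113), ([5, 4, 5, 4], 73), ([5, 13, 0, 4], 113), ([5, 14, 0, 4], 113)]),
    ([5, 13, 8, 4], [([5, 0, 13, 4], 113), ([5, 2, 0, 4], 113), ([5, 4, 5, 4], 73), ([5, 14, 0, 4], 113)]),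
    ([5, 13, 15, 4], [([5, 0, 13, 4], 113), ([5, 2, 0, 4], 113), ([5, 4, 5, 4], 73), ([5, 14, 0, 4], 113)]),
    ([5, 13, 16, 4], [([5, 0, 13, 4], 113), ([5, 4, 5, 4], 73), ([5, 14, 0, 4], 113)]),
    ([5, 14, 0, 4], [([5, 0, 2, 4], 113), ([5, 0, 13, 4], 113), ([5, 0, 14, 4], 113), ([5, 2, 0, 4], 113), ([5, 2, 8, 4], 113), ([5, 2, 16, 4], 113), ([5, 4, 5, 4], 73), ([5, 8, 2, 4], 113), ([5, 8, 14, 4], 113), ([5, 13, 0, 4], 113), ([5, 13, 8, 4], 113), ([5, 13, 15, 4], 113), ([5, 13, 16, 4], 113), ([5, 14, 0, 4], 113), ([5, 15, 2, 4], 113), ([5, 15, 14, 4], 113), ([5, 16, 14, 4], 113)]),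
    ([5, 15, 2, 4], [([5, 0, 13, 4], 119), ([5, 2, 0, 4], 119), ([5, 4, 5, 4], 73), ([5, 14, 0, 4], 119)]),
    ([5, 15, 14, 4], [([5, 0, 13, 4], 119), ([5, 4, 5, 4], 73), ([5, 14, 0, 4], 119)]),
    ([5, 16, 14, 4], [([5, 0, 2, 4], 119), ([5, 0, 13, 4], 119), ([5, 4, 5, 4], 73), ([5, 14, 0, 4], 119)]),
    ([8, 0, 0, 11], [([15, 2, 4, 5], 33), ([15, 14, 4, 5], 33)]),
    ([8, 0, 0, 12], [([13, 0, 4, 5], 38), ([13, 8, 4, 5], 38), ([13, 15, 4, 5], 38), ([13, 16, 4, 5], 38)]),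
    ([8, 0, 2, 2], [([2, 0, 4, 5], 97)]),
    ([8, 0, 8, 11], [([15, 14, 4, 5], 33)]),
    ([8, 0, 8, 12], [([13, 0, 4, 5], 38), ([13, 8, 4, 5], 38), ([13, 16, 4, 5], 38)]),
    ([8, 0, 11, 0], [([0, 2, 4, 5], 126), ([0, 13, 4, 5], 126), ([0, 14, 4, 5], 126)]),
    ([8, 0, 11, 8], [([4, 5, 4, 5], 72)]),
    ([8, 0, 11, 15], [([14, 0, 4, 5], 120)]),
    ([8, 0, 12, 0], [([0, 2, 4, 5], 126), ([0, 14, 4, 5], 126)]),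
    ([8, 0, 12, 8], [([4, 5, 4, 5], 72)]),
    ([8, 0, 13, 2], [([2, 0, 4, 5], 97), ([2, 8, 4, 5], 97), ([2, 16, 4, 5], 97)]),
    ([8, 0, 13, 13], [([16, 14, 4, 5], 97)]),
    ([8, 0, 15, 11], [([15, 14, 4, 5], 33)]),
    ([8, 0, 15, 12], [([13, 0, 4, 5], 38), ([13, 8, 4, 5], 38), ([13, 16, 4, 5], 38)]),
    ([8, 0, 16, 12], [([13, 0, 4, 5], 38)]),
    ([8, 2, 0, 2], [([2, 0, 4, 5], 120), ([2, 8, 4, 5], 120), ([2, 16, 4, 5], 120)]),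
    ([8, 2, 0, 13], [([16, 14, 4, 5], 126)]),
    ([8, 2, 2, 0], [([0, 2, 4, 5], 100), ([0, 14, 4, 5], 100)]),
    ([8, 2, 2, 8], [([4, 5, 4, 5], 72)]),
    ([8, 2, 4, 5], [([8, 2, 4, 5], 118), ([8, 14, 4, 5], 118)]),
    ([8, 2, 8, 2], [([2, 0, 4, 5], 120)]),
    ([8, 2, 14, 0], [([0, 14, 4, 5], 100)]),
    ([8, 4, 5, 2], [([2, 0, 4, 5], 115), ([2, 8, 4, 5], 115), ([2, 16, 4, 5], 115)]),
    ([8, 4, 5, 13], [([16, 14, 4, 5], 115)]),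
    ([8, 8, 0, 11], [([15, 2, 4, 5], 126), ([15, 14, 4, 5], 126)]),
    ([8, 8, 0, 12], [([13, 0, 4, 5], 120), ([13, 8, 4, 5], 120), ([13, 15, 4, 5], 120), ([13, 16, 4, 5], 120)]),
    ([8, 8, 2, 2], [([2, 0, 4, 5], 120)]),
    ([8, 8, 8, 11], [([15, 14, 4, 5], 126)]),
    ([8, 8, 8, 12], [([13, 0, 4, 5], 120), ([13, 8, 4, 5], 120), ([13, 16, 4, 5], 120)]),
    ([8, 8, 11, 0], [([0, 2, 4, 5], 126), ([0, 13, 4, 5], 126), ([0, 14, 4, 5], 126)]),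
    ([8, 8, 11, 8], [([4, 5, 4, 5], 72)]),
    ([8, 8, 11, 15], [([14, 0, 4, 5], 120)]),
    ([8, 8, 12, 0], [([0, 2, 4, 5], 126), ([0, 14, 4, 5], 126)]),
    ([8, 8, 12, 8], [([4, 5, 4, 5], 72)]),
    ([8, 8, 16, 12], [([13, 0, 4, 5], 120)]),
    ([8, 11, 0, 0], [([0, 2, 4, 5], 35), ([0, 13, 4, 5], 35), ([0, 14, 4, 5], 35)]),
    ([8, 11, 0, 8], [([4, 5, 4, 5], 72)]),
    ([8, 11, 0, 15], [([14, 0, 4, 5], 120)]),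
    ([8, 11, 8, 0], [([0, 2, 4, 5], 35), ([0, 14, 4, 5], 35)]),
    ([8, 11, 8, 8], [([4, 5, 4, 5], 72)]),
    ([8, 11, 15, 0], [([0, 2, 4, 5], 35), ([0, 14, 4, 5], 35)]),
    ([8, 11, 15, 8], [([4, 5, 4, 5], 72)]),
    ([8, 11, 16, 0], [([0, 14, 4, 5], 35)]),
    ([8, 12, 0, 0], [([0, 2, 4, 5], 36), ([0, 13, 4, 5], 36), ([0, 14, 4, 5], 36)]),
    ([8, 12, 0, 8], [([4, 5, 4, 5], 72)]),
    ([8, 12, 0, 15], [([14, 0, 4, 5], 120)]),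
    ([8, 12, 8, 0], [([0, 2, 4, 5], 36), ([0, 14, 4, 5], 36)]),
    ([8, 12, 8, 8], [([4, 5, 4, 5], 72)]),
    ([8, 12, 16, 0], [([0, 14, 4, 5], 36)]),
    ([8, 14, 0, 2], [([2, 0, 4, 5], 120), ([2, 8, 4, 5], 120), ([2, 16, 4, 5], 120)]),
    ([8, 14, 0, 13], [([16, 14, 4, 5], 126)]),
    ([8, 14, 4, 5], [([8, 2, 4, 5], 118), ([8, 14, 4, 5], 118)]),
    ([8, 14, 14, 0], [([0, 14, 4, 5], 100)]),
    ([8, 16, 0, 11], [([15, 2, 4, 5], 126), ([15, 14, 4, 5], 126)]),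
    ([8, 16, 0, 12], [([13, 0, 4, 5], 120), ([13, 8, 4, 5], 120), ([13, 15, 4, 5], 120), ([13, 16, 4, 5], 120)]),
    ([8, 16, 12, 0], [([0, 2, 4, 5], 126), ([0, 14, 4, 5], 126)]),
    ([8, 16, 12, 8], [([4, 5, 4, 5], 72)]),
    ([11, 0, 0, 0], [([0, 0, 0, 14], 34), ([0, 0, 2, 14], 34), ([0, 0, 13, 14], 34), ([0, 0, 14, 14], 34), ([0, 2, 0, 14], 34), ([0, 2, 8, 14], 34), ([0, 2, 16, 14], 34), ([0, 4, 5, 14], 34), ([0, 8, 2, 14], 34), ([0, 8, 14, 14], 34), ([0, 13, 0, 14], 34), ([0, 13, 8, 14], 34), ([0, 13, 15, 14], 34), ([0, 13, 16, 14], 34), ([0, 14, 0, 14], 34), ([0, 15, 2, 14], 34), ([0, 15, 14, 14], 34), ([0, 16, 14, 14], 34)]),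
    ([11, 0, 0, 8], [([4, 5, 0, 14], 34), ([4, 5, 8, 14], 34), ([4, 5, 15, 14], 34), ([4, 5, 16, 14], 34)]),
    ([11, 0, 0, 15], [([14, 0, 0, 14], 34), ([14, 0, 8, 14], 34), ([14, 0, 15, 14], 34), ([14, 0, 16, 14], 34)]),
    ([11, 0, 8, 0], [([0, 0, 0, 14], 59), ([0, 0, 2, 14], 105), ([0, 0, 13, 14], 105), ([0, 0, 14, 14], 105), ([0, 2, 0, 14], 255), ([0, 2, 8, 14], 200), ([0, 2, 16, 14], 221), ([0, 4, 5, 14], 123), ([0, 8, 2, 14], 109), ([0, 8, 14, 14], 109), ([0, 14, 0, 14], 291), ([0, 16, 14, 14], 109)]),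
    ([11, 0, 8, 8], [([4, 5, 0, 14], 124), ([4, 5, 8, 14], 124), ([4, 5, 15, 14], 124), ([4, 5, 16, 14], 124)]),
    ([11, 0, 15, 0], [([0, 0, 0, 14], 59), ([0, 0, 2, 14], 105), ([0, 0, 13, 14], 105), ([0, 0, 14, 14], 105), ([0, 2, 0, 14], 275), ([0, 2, 8, 14], 200), ([0, 2, 16, 14], 221), ([0, 4, 5, 14], 123), ([0, 8, 2, 14], 109), ([0, 8, 14, 14], 109), ([0, 14, 0, 14], 275), ([0, 16, 14, 14], 109)]),
    ([11, 0, 15, 8], [([4, 5, 0, 14], 124), ([4, 5, 8, 14], 124), ([4, 5, 15, 14], 124), ([4, 5, 16, 14], 124)]),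
    ([11, 0, 16, 0], [([0, 0, 0, 14], 59), ([0, 0, 2, 14], 105), ([0, 0, 13, 14], 105), ([0, 0, 14, 14], 105), ([0, 4, 5, 14], 123), ([0, 14, 0, 14], 291)]),
    ([11, 8, 0, 0], [([0, 0, 0, 14], 34), ([0, 0, 2, 14], 34), ([0, 0, 13, 14], 34), ([0, 2, 0, 14], 34), ([0, 2, 8, 14], 34), ([0, 4, 5, 14], 34), ([0, 8, 2, 14], 34), ([0, 13, 0, 14], 34), ([0, 13, 8, 14], 34), ([0, 13, 15, 14], 34), ([0, 14, 0, 14], 34), ([0, 15, 2, 14], 34)]),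
    ([11, 8, 0, 8], [([4, 5, 0, 14], 34), ([4, 5, 8, 14], 34), ([4, 5, 15, 14], 34)]),
    ([11, 8, 0, 15], [([14, 0, 0, 14], 34), ([14, 0, 8, 14], 34), ([14, 0, 15, 14], 34)]),
    ([11, 8, 8, 0], [([0, 0, 0, 14], 59), ([0, 0, 2, 14], 105), ([0, 0, 13, 14], 105), ([0, 2, 0, 14], 131), ([0, 2, 8, 14], 131), ([0, 4, 5, 14], 123), ([0, 8, 2, 14], 109), ([0, 14, 0, 14], 131)]),
    ([11, 8, 8, 8], [([4, 5, 0, 14], 124), ([4, 5, 8, 14], 124), ([4, 5, 15, 14], 124)]),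
    ([11, 8, 16, 0], [([0, 0, 0, 14], 59), ([0, 0, 2, 14], 105), ([0, 0, 13, 14], 105), ([0, 4, 5, 14], 123), ([0, 14, 0, 14], 131)]),
    ([11, 15, 0, 0], [([0, 0, 0, 14], 34), ([0, 0, 13, 14], 34), ([0, 2, 0, 14], 34), ([0, 4, 5, 14], 34), ([0, 13, 0, 14], 34), ([0, 14, 0, 14], 34)]),
    ([11, 15, 0, 8], [([4, 5, 0, 14], 34)]),
    ([11, 15, 0, 15], [([14, 0, 0, 14], 34)]),
    ([11, 15, 8, 0], [([0, 0, 0, 14], 59), ([0, 0, 13, 14], 105), ([0, 2, 0, 14], 147), ([0, 4, 5, 14], 123), ([0, 14, 0, 14], 147)]),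
    ([11, 15, 8, 8], [([4, 5, 0, 14], 124)]),
    ([11, 15, 16, 0], [([0, 0, 0, 14], 59), ([0, 0, 13, 14], 105), ([0, 4, 5, 14], 123), ([0, 14, 0, 14], 147)]),
    ([11, 16, 0, 0], [([0, 0, 0, 14], 34), ([0, 0, 2, 14], 34), ([0, 0, 13, 14], 34), ([0, 2, 0, 14], 34), ([0, 2, 8, 14], 34), ([0, 4, 5, 14], 34), ([0, 8, 2, 14], 34), ([0, 13, 0, 14], 34), ([0, 13, 8, 14], 34), ([0, 13, 15, 14], 34), ([0, 14, 0, 14], 34), ([0, 15, 2, 14], 34)]),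
    ([11, 16, 0, 8], [([4, 5, 0, 14], 34), ([4, 5, 8, 14], 34), ([4, 5, 15, 14], 34)]),
    ([11, 16, 0, 15], [([14, 0, 0, 14], 34), ([14, 0, 8, 14], 34), ([14, 0, 15, 14], 34)]),
    ([12, 0, 0, 0], [([0, 0, 11, 16], 39), ([0, 0, 12, 16], 39), ([0, 2, 2, 16], 39), ([0, 8, 11, 16], 39), ([0, 8, 12, 16], 39), ([0, 11, 0, 16], 39), ([0, 11, 8, 16], 39), ([0, 11, 15, 16], 39), ([0, 12, 0, 16], 39), ([0, 12, 8, 16], 39), ([0, 13, 2, 16], 39), ([0, 13, 13, 16], 39), ([0, 15, 11, 16], 39), ([0, 15, 12, 16], 39), ([0, 16, 12, 16], 39)]),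
    ([12, 0, 0, 8], [([4, 5, 2, 16], 39), ([4, 5, 13, 16], 39)]),
    ([12, 0, 0, 15], [([14, 0, 2, 16], 39), ([14, 0, 13, 16], 39), ([14, 4, 5, 16], 39), ([14, 14, 0, 16], 39)]),
    ([12, 0, 0, 16], [([12, 0, 0, 16], 39), ([12, 0, 8, 16], 39), ([12, 0, 15, 16], 39), ([12, 8, 0, 16], 39), ([12, 8, 8, 16], 39), ([12, 16, 0, 16], 39)]),
    ([12, 0, 8, 0], [([0, 0, 11, 16], 40), ([0, 0, 12, 16], 45), ([0, 2, 2, 16], 104), ([0, 8, 11, 16], 40), ([0, 8, 12, 16], 45), ([0, 11, 8, 16], 136), ([0, 11, 15, 16], 152), ([0, 12, 0, 16], 238), ([0, 12, 8, 16], 136), ([0, 16, 12, 16], 45)]),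
    ([12, 0, 8, 8], [([4, 5, 2, 16], 122), ([4, 5, 13, 16], 122)]),
    ([12, 0, 8, 16], [([12, 0, 0, 16], 47), ([12, 0, 8, 16], 150), ([12, 0, 15, 16], 150)]),
    ([12, 0, 15, 0], [([0, 0, 11, 16], 40), ([0, 0, 12, 16], 45), ([0, 2, 2, 16], 104), ([0, 8, 11, 16], 40), ([0, 8, 12, 16], 45), ([0, 11, 0, 16], 335), ([0, 11, 8, 16], 136), ([0, 11, 15, 16], 152), ([0, 12, 0, 16], 335), ([0, 12, 8, 16], 136), ([0, 16, 12, 16], 45)]),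
    ([12, 0, 15, 8], [([4, 5, 2, 16], 122), ([4, 5, 13, 16], 122)]),
    ([12, 0, 15, 16], [([12, 0, 0, 16], 47), ([12, 0, 8, 16], 150), ([12, 0, 15, 16], 150)]),
    ([12, 0, 16, 0], [([0, 0, 11, 16], 40), ([0, 0, 12, 16], 45), ([0, 12, 0, 16], 342), ([0, 12, 8, 16], 136)]),
    ([12, 8, 0, 0], [([0, 0, 11, 16], 39), ([0, 8, 11, 16], 39), ([0, 11, 0, 16], 39), ([0, 12, 0, 16], 39), ([0, 13, 13, 16], 39), ([0, 15, 11, 16], 39)]),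
    ([12, 8, 0, 8], [([4, 5, 13, 16], 39)]),
    ([12, 8, 0, 15], [([14, 0, 13, 16], 39), ([14, 4, 5, 16], 39), ([14, 14, 0, 16], 39)]),
    ([12, 8, 0, 16], [([12, 0, 0, 16], 39), ([12, 8, 0, 16], 39), ([12, 16, 0, 16], 39)]),
    ([12, 8, 8, 0], [([0, 0, 11, 16], 40), ([0, 8, 11, 16], 40), ([0, 11, 0, 16], 131), ([0, 12, 0, 16], 131)]),
    ([12, 8, 8, 8], [([4, 5, 13, 16], 122)]),
    ([12, 8, 8, 16], [([12, 0, 0, 16], 47)]),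
    ([12, 8, 16, 0], [([0, 0, 11, 16], 40), ([0, 12, 0, 16], 131)]),
    ([12, 16, 0, 0], [([0, 0, 11, 16], 39), ([0, 8, 11, 16], 39), ([0, 11, 0, 16], 39), ([0, 12, 0, 16], 39), ([0, 13, 13, 16], 39), ([0, 15, 11, 16], 39)]),
    ([12, 16, 0, 8], [([4, 5, 13, 16], 39)]),
    ([12, 16, 0, 15], [([14, 0, 13, 16], 39), ([14, 4, 5, 16], 39), ([14, 14, 0, 16], 39)]),
    ([12, 16, 0, 16], [([12, 0, 0, 16], 39), ([12, 8, 0, 16], 39), ([12, 16, 0, 16], 39)]),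
    ([13, 0, 0, 0], [([0, 0, 0, 12], 46), ([0, 0, 8, 12], 46), ([0, 0, 15, 12], 46), ([0, 0, 16, 12], 46), ([0, 8, 0, 12], 48), ([0, 8, 8, 12], 48), ([0, 8, 16, 12], 48), ([0, 15, 0, 12], 48), ([0, 15, 8, 12], 48), ([0, 15, 16, 12], 48), ([0, 16, 0, 12], 48)]),
    ([13, 0, 0, 13], [([16, 0, 0, 12], 46), ([16, 0, 8, 12], 46), ([16, 0, 15, 12], 46), ([16, 0, 16, 12], 46)]),
    ([13, 0, 2, 0], [([0, 0, 0, 12], 46), ([0, 0, 8, 12], 46), ([0, 0, 15, 12], 46), ([0, 0, 16, 12], 46), ([0, 8, 0, 12], 241), ([0, 8, 8, 12], 141), ([0, 8, 16, 12], 157), ([0, 16, 0, 12], 285)]),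
    ([13, 0, 4, 5], [([8, 0, 0, 12], 46), ([8, 0, 8, 12], 46), ([8, 0, 15, 12], 46), ([8, 0, 16, 12], 46), ([8, 8, 0, 12], 112), ([8, 8, 8, 12], 112), ([8, 8, 16, 12], 112), ([8, 16, 0, 12], 112)]),
    ([13, 0, 13, 0], [([0, 0, 0, 12], 46), ([0, 0, 8, 12], 46), ([0, 0, 15, 12], 46), ([0, 0, 16, 12], 46), ([0, 8, 0, 12], 301), ([0, 8, 8, 12], 141), ([0, 8, 16, 12], 157), ([0, 15, 0, 12], 301), ([0, 15, 8, 12], 141), ([0, 15, 16, 12], 157), ([0, 16, 0, 12], 285)]),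
    ([13, 0, 14, 0], [([0, 0, 0, 12], 46), ([0, 0, 8, 12], 46), ([0, 0, 15, 12], 46), ([0, 0, 16, 12], 46)]),
    ([13, 2, 0, 0], [([0, 0, 0, 12], 46), ([0, 0, 8, 12], 46), ([0, 0, 15, 12], 46), ([0, 8, 0, 12], 99), ([0, 8, 8, 12], 99), ([0, 15, 0, 12], 99), ([0, 15, 8, 12], 99), ([0, 16, 0, 12], 99)]),
    ([13, 2, 8, 0], [([0, 0, 0, 12], 46), ([0, 0, 8, 12], 46), ([0, 0, 15, 12], 46), ([0, 8, 0, 12], 99), ([0, 8, 8, 12], 99), ([0, 16, 0, 12], 99)]),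
    ([13, 2, 16, 0], [([0, 0, 0, 12], 46), ([0, 0, 8, 12], 46), ([0, 0, 15, 12], 46)]),
    ([13, 4, 5, 0], [([0, 0, 0, 12], 46), ([0, 0, 8, 12], 46), ([0, 0, 15, 12], 46), ([0, 0, 16, 12], 46), ([0, 8, 0, 12], 117), ([0, 8, 8, 12], 117), ([0, 8, 16, 12], 117), ([0, 15, 0, 12], 117), ([0, 15, 8, 12], 117), ([0, 15, 16, 12], 117), ([0, 16, 0, 12], 117)]),
    ([13, 8, 0, 13], [([16, 0, 0, 12], 46), ([16, 0, 8, 12], 46), ([16, 0, 15, 12], 46)]),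
    ([13, 8, 2, 0], [([0, 0, 0, 12], 46), ([0, 0, 8, 12], 46), ([0, 0, 15, 12], 46), ([0, 8, 0, 12], 195), ([0, 8, 8, 12], 141), ([0, 16, 0, 12], 195)]),
    ([13, 8, 4, 5], [([8, 0, 0, 12], 46), ([8, 0, 8, 12], 46), ([8, 0, 15, 12], 46), ([8, 8, 0, 12], 112), ([8, 8, 8, 12], 112), ([8, 16, 0, 12], 112)]),
    ([13, 8, 14, 0], [([0, 0, 0, 12], 46), ([0, 0, 8, 12], 46), ([0, 0, 15, 12], 46)]),
    ([13, 13, 0, 0], [([0, 0, 0, 12], 46), ([0, 8, 0, 12], 99), ([0, 15, 0, 12], 99), ([0, 16, 0, 12], 99)]),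
    ([13, 13, 8, 0], [([0, 0, 0, 12], 46), ([0, 8, 0, 12], 99), ([0, 16, 0, 12], 99)]),
    ([13, 13, 15, 0], [([0, 0, 0, 12], 46), ([0, 8, 0, 12], 99), ([0, 16, 0, 12], 99)]),
    ([13, 13, 16, 0], [([0, 0, 0, 12], 46)]),
    ([13, 14, 0, 0], [([0, 0, 0, 12], 46), ([0, 0, 8, 12], 46), ([0, 0, 15, 12], 46), ([0, 0, 16, 12], 46), ([0, 8, 0, 12], 99), ([0, 8, 8, 12], 99), ([0, 8, 16, 12], 99), ([0, 15, 0, 12], 99), ([0, 15, 8, 12], 99), ([0, 15, 16, 12], 99), ([0, 16, 0, 12], 99)]),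
    ([13, 15, 0, 13], [([16, 0, 0, 12], 46)]),
    ([13, 15, 2, 0], [([0, 0, 0, 12], 46), ([0, 8, 0, 12], 211), ([0, 16, 0, 12], 211)]),
    ([13, 15, 4, 5], [([8, 0, 0, 12], 46), ([8, 8, 0, 12], 112), ([8, 16, 0, 12], 112)]),
    ([13, 15, 14, 0], [([0, 0, 0, 12], 46)]),
    ([13, 16, 0, 13], [([16, 0, 0, 12], 46), ([16, 0, 8, 12], 46), ([16, 0, 15, 12], 46)]),
    ([13, 16, 4, 5], [([8, 0, 0, 12], 46), ([8, 0, 8, 12], 46), ([8, 0, 15, 12], 46), ([8, 8, 0, 12], 112), ([8, 8, 8, 12], 112), ([8, 16, 0, 12], 112)]),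
    ([13, 16, 14, 0], [([0, 0, 0, 12], 46), ([0, 0, 8, 12], 46), ([0, 0, 15, 12], 46)]),
    ([14, 0, 0, 0], [([0, 0, 11, 15], 40), ([0, 8, 11, 15], 40), ([0, 11, 0, 15], 48), ([0, 12, 0, 15], 48), ([0, 13, 13, 15], 48), ([0, 15, 11, 15], 40)]),
    ([14, 0, 0, 2], [([2, 0, 13, 15], 98), ([2, 2, 0, 15], 98), ([2, 4, 5, 15], 98), ([2, 14, 0, 15], 98)]),
    ([14, 0, 0, 13], [([16, 0, 11, 15], 98), ([16, 12, 0, 15], 98)]),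
    ([14, 0, 0, 14], [([11, 0, 0, 15], 42), ([11, 8, 0, 15], 42), ([11, 15, 0, 15], 42), ([11, 16, 0, 15], 42)]),
    ([14, 0, 2, 0], [([0, 0, 11, 15], 40), ([0, 8, 11, 15], 40), ([0, 12, 0, 15], 375)]),
    ([14, 0, 2, 8], [([4, 5, 13, 15], 122)]),
    ([14, 0, 2, 16], [([12, 0, 0, 15], 47)]),
    ([14, 0, 4, 5], [([8, 0, 11, 15], 112), ([8, 8, 11, 15], 112), ([8, 11, 0, 15], 112), ([8, 12, 0, 15], 112)]),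
    ([14, 0, 8, 2], [([2, 0, 13, 15], 102), ([2, 4, 5, 15], 102), ([2, 14, 0, 15], 102)]),
    ([14, 0, 8, 14], [([11, 0, 0, 15], 42), ([11, 8, 0, 15], 42), ([11, 16, 0, 15], 42)]),
    ([14, 0, 13, 0], [([0, 0, 11, 15], 40), ([0, 8, 11, 15], 40), ([0, 11, 0, 15], 308), ([0, 12, 0, 15], 308), ([0, 13, 13, 15], 104), ([0, 15, 11, 15], 40)]),
    ([14, 0, 13, 8], [([4, 5, 13, 15], 122)]),
    ([14, 0, 13, 15], [([14, 0, 13, 15], 209), ([14, 4, 5, 15], 125), ([14, 14, 0, 15], 111)]),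
    ([14, 0, 13, 16], [([12, 0, 0, 15], 47), ([12, 8, 0, 15], 47), ([12, 16, 0, 15], 47)]),
    ([14, 0, 14, 0], [([0, 0, 11, 15], 40)]),
    ([14, 0, 15, 2], [([2, 0, 13, 15], 102), ([2, 4, 5, 15], 102), ([2, 14, 0, 15], 102)]),
    ([14, 0, 15, 14], [([11, 0, 0, 15], 42), ([11, 8, 0, 15], 42), ([11, 16, 0, 15], 42)]),
    ([14, 0, 16, 14], [([11, 0, 0, 15], 42)]),
    ([14, 4, 5, 0], [([0, 0, 11, 15], 40), ([0, 8, 11, 15], 40), ([0, 11, 0, 15], 117), ([0, 12, 0, 15], 117), ([0, 13, 13, 15], 104), ([0, 15, 11, 15], 40)]),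
    ([14, 4, 5, 8], [([4, 5, 13, 15], 117)]),
    ([14, 4, 5, 15], [([14, 0, 13, 15], 117), ([14, 4, 5, 15], 117), ([14, 14, 0, 15], 111)]),
    ([14, 4, 5, 16], [([12, 0, 0, 15], 47), ([12, 8, 0, 15], 47), ([12, 16, 0, 15], 47)]),
    ([14, 14, 0, 0], [([0, 0, 11, 15], 40), ([0, 8, 11, 15], 40), ([0, 11, 0, 15], 99), ([0, 12, 0, 15], 99), ([0, 13, 13, 15], 99), ([0, 15, 11, 15], 40)]),
    ([14, 14, 0, 8], [([4, 5, 13, 15], 103)]),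
    ([14, 14, 0, 15], [([14, 0, 13, 15], 103), ([14, 4, 5, 15], 103), ([14, 14, 0, 15], 103)]),
    ([14, 14, 0, 16], [([12, 0, 0, 15], 47), ([12, 8, 0, 15], 47), ([12, 16, 0, 15], 47)]),
    ([15, 0, 0, 11], [([15, 0, 0, 11], 33), ([15, 0, 8, 11], 33), ([15, 0, 15, 11], 33), ([15, 8, 0, 11], 33), ([15, 8, 8, 11], 33), ([15, 16, 0, 11], 33)]),
    ([15, 0, 8, 11], [([15, 0, 0, 11], 33), ([15, 0, 8, 11], 33), ([15, 0, 15, 11], 33)]),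
    ([15, 0, 11, 0], [([0, 0, 0, 11], 41), ([0, 0, 8, 11], 41), ([0, 0, 15, 11], 41), ([0, 8, 0, 11], 226), ([0, 8, 8, 11], 141), ([0, 15, 0, 11], 346), ([0, 15, 8, 11], 141), ([0, 16, 0, 11], 321)]),
    ([15, 0, 12, 0], [([0, 0, 0, 11], 41), ([0, 0, 8, 11], 41), ([0, 0, 15, 11], 41), ([0, 8, 8, 11], 141), ([0, 16, 0, 11], 321)]),
    ([15, 0, 13, 13], [([16, 0, 0, 11], 41), ([16, 0, 8, 11], 41), ([16, 0, 15, 11], 41)]),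
    ([15, 0, 15, 11], [([15, 0, 0, 11], 33), ([15, 0, 8, 11], 33), ([15, 0, 15, 11], 33)]),
    ([15, 2, 0, 13], [([16, 0, 0, 11], 41)]),
    ([15, 2, 2, 0], [([0, 0, 0, 11], 41), ([0, 8, 0, 11], 100), ([0, 16, 0, 11], 100)]),
    ([15, 2, 4, 5], [([8, 0, 0, 11], 41), ([8, 8, 0, 11], 118), ([8, 16, 0, 11], 118)]),
    ([15, 2, 14, 0], [([0, 0, 0, 11], 41)]),
    ([15, 4, 5, 13], [([16, 0, 0, 11], 41), ([16, 0, 8, 11], 41), ([16, 0, 15, 11], 41)]),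
    ([15, 8, 0, 11], [([15, 0, 0, 11], 41), ([15, 8, 0, 11], 146), ([15, 16, 0, 11], 146)]),
    ([15, 8, 8, 11], [([15, 0, 0, 11], 41)]),
    ([15, 8, 11, 0], [([0, 0, 0, 11], 41), ([0, 8, 0, 11], 132), ([0, 15, 0, 11], 132), ([0, 16, 0, 11], 132)]),
    ([15, 8, 12, 0], [([0, 0, 0, 11], 41), ([0, 8, 0, 11], 132), ([0, 16, 0, 11], 132)]),
    ([15, 11, 0, 0], [([0, 0, 0, 11], 35), ([0, 8, 0, 11], 35), ([0, 15, 0, 11], 35), ([0, 16, 0, 11], 35)]),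
    ([15, 11, 8, 0], [([0, 0, 0, 11], 35), ([0, 8, 0, 11], 35), ([0, 16, 0, 11], 35)]),
    ([15, 11, 15, 0], [([0, 0, 0, 11], 35), ([0, 8, 0, 11], 35), ([0, 16, 0, 11], 35)]),
    ([15, 11, 16, 0], [([0, 0, 0, 11], 35)]),
    ([15, 12, 0, 0], [([0, 0, 0, 11], 36), ([0, 0, 8, 11], 36), ([0, 0, 15, 11], 36), ([0, 8, 0, 11], 36), ([0, 8, 8, 11], 36), ([0, 15, 0, 11], 36), ([0, 15, 8, 11], 36), ([0, 16, 0, 11], 36)]),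
    ([15, 12, 8, 0], [([0, 0, 0, 11], 36), ([0, 0, 8, 11], 36), ([0, 0, 15, 11], 36), ([0, 8, 0, 11], 36), ([0, 8, 8, 11], 36), ([0, 16, 0, 11], 36)]),
    ([15, 12, 16, 0], [([0, 0, 0, 11], 36), ([0, 0, 8, 11], 36), ([0, 0, 15, 11], 36)]),
    ([15, 14, 0, 13], [([16, 0, 0, 11], 41), ([16, 0, 8, 11], 41), ([16, 0, 15, 11], 41)]),
    ([15, 14, 4, 5], [([8, 0, 0, 11], 41), ([8, 0, 8, 11], 41), ([8, 0, 15, 11], 41), ([8, 8, 0, 11], 118), ([8, 8, 8, 11], 118), ([8, 16, 0, 11], 118)]),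
    ([15, 14, 14, 0], [([0, 0, 0, 11], 41), ([0, 0, 8, 11], 41), ([0, 0, 15, 11], 41)]),
    ([15, 16, 0, 11], [([15, 0, 0, 11], 41), ([15, 8, 0, 11], 146), ([15, 16, 0, 11], 146)]),
    ([15, 16, 12, 0], [([0, 0, 0, 11], 41), ([0, 8, 0, 11], 148), ([0, 16, 0, 11], 148)]),
    ([16, 0, 0, 11], [([15, 0, 13, 13], 33), ([15, 2, 0, 13], 33), ([15, 4, 5, 13], 33), ([15, 14, 0, 13], 33)]),
    ([16, 0, 0, 12], [([13, 0, 0, 13], 38), ([13, 8, 0, 13], 38), ([13, 15, 0, 13], 38), ([13, 16, 0, 13], 38)]),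
    ([16, 0, 2, 2], [([2, 0, 0, 13], 97)]),
    ([16, 0, 8, 11], [([15, 0, 13, 13], 33), ([15, 4, 5, 13], 33), ([15, 14, 0, 13], 33)]),
    ([16, 0, 8, 12], [([13, 0, 0, 13], 38), ([13, 8, 0, 13], 38), ([13, 16, 0, 13], 38)]),
    ([16, 0, 11, 0], [([0, 0, 0, 13], 59), ([0, 0, 13, 13], 105), ([0, 2, 0, 13], 377), ([0, 4, 5, 13], 123), ([0, 14, 0, 13], 312)]),
    ([16, 0, 11, 8], [([4, 5, 0, 13], 124)]),
    ([16, 0, 11, 15], [([14, 0, 0, 13], 106)]),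
    ([16, 0, 12, 0], [([0, 0, 0, 13], 59), ([0, 0, 13, 13], 105), ([0, 4, 5, 13], 123), ([0, 14, 0, 13], 312)]),
    ([16, 0, 12, 8], [([4, 5, 0, 13], 124)]),
    ([16, 0, 13, 2], [([2, 0, 0, 13], 97), ([2, 8, 0, 13], 97), ([2, 16, 0, 13], 97)]),
    ([16, 0, 13, 13], [([16, 0, 13, 13], 97), ([16, 4, 5, 13], 97), ([16, 14, 0, 13], 97)]),
    ([16, 0, 15, 11], [([15, 0, 13, 13], 33), ([15, 4, 5, 13], 33), ([15, 14, 0, 13], 33)]),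
    ([16, 0, 15, 12], [([13, 0, 0, 13], 38), ([13, 8, 0, 13], 38), ([13, 16, 0, 13], 38)]),
    ([16, 0, 16, 12], [([13, 0, 0, 13], 38)]),
    ([16, 4, 5, 2], [([2, 0, 0, 13], 106), ([2, 8, 0, 13], 106), ([2, 16, 0, 13], 106)]),
    ([16, 4, 5, 13], [([16, 0, 13, 13], 105), ([16, 4, 5, 13], 115), ([16, 14, 0, 13], 115)]),
    ([16, 12, 0, 0], [([0, 0, 0, 13], 36), ([0, 0, 13, 13], 36), ([0, 2, 0, 13], 36), ([0, 4, 5, 13], 36), ([0, 13, 0, 13], 36), ([0, 14, 0, 13], 36)]),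
    ([16, 12, 0, 8], [([4, 5, 0, 13], 124)]),
    ([16, 12, 0, 15], [([14, 0, 0, 13], 106)]),
    ([16, 12, 8, 0], [([0, 0, 0, 13], 36), ([0, 0, 13, 13], 36), ([0, 2, 0, 13], 36), ([0, 4, 5, 13], 36), ([0, 14, 0, 13], 36)]),
    ([16, 12, 8, 8], [([4, 5, 0, 13], 124)]),
    ([16, 12, 16, 0], [([0, 0, 0, 13], 36), ([0, 0, 13, 13], 36), ([0, 4, 5, 13], 36), ([0, 14, 0, 13], 36)]),
    ([16, 14, 0, 2], [([2, 0, 0, 13], 106), ([2, 8, 0, 13], 106), ([2, 16, 0, 13], 106)]),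
    ([16, 14, 0, 13], [([16, 0, 13, 13], 105), ([16, 4, 5, 13], 123), ([16, 14, 0, 13], 215)]),
    ([16, 14, 4, 5], [([8, 0, 13, 13], 105), ([8, 2, 0, 13], 118), ([8, 4, 5, 13], 118), ([8, 14, 0, 13], 118)]),
    ([16, 14, 14, 0], [([0, 0, 0, 13], 59), ([0, 0, 13, 13], 100), ([0, 4, 5, 13], 100), ([0, 14, 0, 13], 100)])]

def w_ok : spw T = true := by decide +kernel

def t_ok : spt F T = true := by decide +kernel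

def okf_ok : F.all okf = true := by decide +kernel

end Pool.FC8.SpT
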