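import Pool.Agent.FC8.Spr
import Pool.Agent.FC8.SpT
import Pool.Agent.FC7.SyQ
import Pool.Agent.FC7.StF

/-! # Maximum degree 6: the assembly, the star inequality is the only hypothesis -/

set_option linter.all false

namespace Pool.FC8.Spn

open Pool.FC6 Pool.FC7

/-- the facts for the region with two vertices -/
theorem fl : ∀ X ∈ SpT.F, NoL X.1 X.2 :=
  K.same (K.both Spr.B000_0 (K.both Spr.B001_0 (K.both Spr.B002_0 (K.both Spr.B006_0 (K.both Spr.B010_0 (K.both Spr.B016_0 (K.both Spr.B003_0 (K.both Spr.B004_0 (K.both Spr.B005_0 (K.both Spr.B007_0 (K.both Spr.B019_0 (K.both Spr.B022_0 (K.both Spr.B008_0 (K.both Spr.B009_0 (K.both Spr.B023_0 (K.both Spr.B017_0 (K.both Spr.B011_0 (K.both Spr.B012_0 (K.both Spr.B013_0 (K.both Spr.B014_0 (K.both Spr.B015_0 (K.both Spr.B018_0 (K.both Spr.B020_0 (K.both Spr.B021_0 Spr.B024_0)))))))))))))))))))))))) (by decide +kernel)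

theorem f1 : F1 := Spr.B025_0 ([14, 0, 2, 0], [(0, [0, 11, 0, 15]), (1, []), (3, [33, 35, 33, 32])])
  (by decide +kernel)

theorem f2 : F2 := Spr.B026_0 ([14, 0, 14, 0], [(0, [0, 12, 0, 15]), (1, []), (3, [34, 35, 32, 32])])
  (by decide +kernel)

theorem f3 : F3 := fl ([32, 33, 42, 5], [(1, [0, 15, 0, 12])]) (by decide +kernel)

/-- THE FINAL ASSEMBLY: the star inequality excludes minimal counterexamples -/
theorem noMCt6 {den nl nu dl hg hl : ℕ} {F : List ℕ → List ℕ → ℕ} (hden : 0 < den)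
    (hnl : 5 * nl ≤ 8 * den) (hnu : 2 * nu < 3 * den) (hdl : nu + dl < 2 * den)
    (hhg : 2 * hg ≤ den) (hhl : 5 * hl ≤ 4 * den) (hstar : StarOk3 den nl nu dl (hgf hg hl) F) :
    FTL.NoMCt6 :=
  noMCt6_of3 hden hnl hnu hdl hhg hhl hstar fl SpT.okf_ok f1 f2 f3 (noSp_of SpT.w_ok SpT.t_ok)

end Pool.FC8.Spn
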