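import Pool.Agent.FC7.SyQ
import Pool.Agent.FC8.SpT
import Pool.Agent.FC8.Sp
import Pool.Agent.FC8.E1

/-! # The region with two vertices -/

namespace Pool.FC8.Spt

open Pool.FC7

theorem eq : Sp.FL = SpT.F := rfl

theorem nosp : NoSp Sp.FL := by
  rw [eq]
  exact noSp_of SpT.w_ok SpT.t_ok

theorem okf_ok : Sp.FL.all okf = true := by
  rw [eq]
  exact SpT.okf_ok

theorem f3 : F3 := Sp.L01

/-- THE STAR INEQUALITY AND THE FACTS: there is no minimal counterexample in canonical form -/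
theorem noMCt {D V : Type} [Fintype D] [DecidableEq V] {S : Pool.FC6.St D V} {L : D → Bool}
    {w : D → ℕ} {den nl nu : ℕ} {F : List ℕ → List ℕ → ℕ} (hden : 0 < den)
    (hnl : 5 * nl ≤ 8 * den) (hnu : 2 * nu < 3 * den)
    {facts : List Pool.FCS.Fct} (hfacts : ∀ X ∈ facts, NoL X.1 X.2)
    (hok : facts.all okf = true) (hstar : StarOk facts den nl nu F)
    (hM : MCt tbd 6 S L w) : False :=
  noMCt_of_star hden hnl hnu hfacts hok hstar Sp.FL_ok okf_ok E1.LF1 E1.LF2 f3 nosp hM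

end Pool.FC8.Spt
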