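import Pool.Agent.FC8.Spn
import Pool.Agent.FCR.Cv

/-! # Maximum degree 6 with refined words: the star inequality is the only hypothesis -/

namespace Pool.FC8.Spn

open Pool.FC6 Pool.FC7

/-- THE FINAL ASSEMBLY: the star inequality with flows on the edges (refined words), on the solid
triangles and on the kites excludes minimal counterexamples -/
theorem noMCt6R {den nl nu dl hg hl : ℕ} {F : List ℕ → List ℕ → ℕ}
    {X : List ℕ → List ℕ → List ℕ → ℤ} {y : List ℕ → List ℕ → List ℕ → List ℕ → ℤ}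
    (hX : ∀ a b c, X a b c + X b c a + X c a b = 0)
    (hy : ∀ a b c d, y a b c d + y b a d c = 0)
    (hden : 0 < den)
    (hnl : 5 * nl ≤ 8 * den) (hnu : 2 * nu < 3 * den) (hdl : nu + dl < 2 * den)
    (hhg : 2 * hg ≤ den) (hhl : 5 * hl ≤ 4 * den)
    (hstar : Pool.FCR.StarOkR den nl nu dl (hgf hg hl) F X y) : FTL.NoMCt6 :=
  noMCt6_ofE (Pool.FCR.zeroE_R hX hy) hden hnl hnu hdl hhg hhl hstar fl SpT.okf_ok f1 f2 f3
    (noSp_of SpT.w_ok SpT.t_ok)

end Pool.FC8.Spn
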