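import Pool.Agent.FC8.Sqr
import Pool.Agent.FCR.Kr

/-! # Maximum degree 6 with refined words: the tables of the star check -/

namespace Pool.FC8.Spn

open Pool.FC6 Pool.FC7

/-- THE FINAL ASSEMBLY for the tables of the star check -/
theorem noMCt6K {den nl nu dl hg hl : ℕ} {F : List ℕ → List ℕ → ℕ} (K : Pool.FCP.Kx)
    {WL : Pool.FCS.BT (List ℕ)} (hz : Pool.FCP.Kz K WL) (hden : 0 < den)
    (hnl : 5 * nl ≤ 8 * den) (hnu : 2 * nu < 3 * den) (hdl : nu + dl < 2 * den)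
    (hhg : 2 * hg ≤ den) (hhl : 5 * hl ≤ 4 * den)
    (hstar : Pool.FCR.StarOkR den nl nu dl (hgf hg hl) F
      (fun a b c => K.X.xw (a.map Pool.FCR.ccf) (b.map Pool.FCR.ccf) (c.map Pool.FCR.ccf))
      (fun a b c d => K.yw (a.map Pool.FCR.ccf) (b.map Pool.FCR.ccf) (c.map Pool.FCR.ccf)
        (d.map Pool.FCR.ccf))) : FTL.NoMCt6 :=
  noMCt6R (fun _ _ _ => Pool.FCR.tri_ofR hz _ _ _) (fun _ _ _ _ => Pool.FCR.kit_ofR hz _ _ _ _)
    hden hnl hnu hdl hhg hhl hstar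

end Pool.FC8.Spn
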