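import Pool.Agent.FC8.Spn
import Pool.Agent.FC7.StH

/-! # Maximum degree 6 with gains of the darts: the star inequality is the only hypothesis -/

namespace Pool.FC8.Spn

open Pool.FC6 Pool.FC7

/-- THE FINAL ASSEMBLY: the star inequality with flows on the edges and gains of the darts with zero
sum excludes minimal counterexamples -/
theorem noMCt6E {den nl nu dl hg hl : ℕ} {F : List ℕ → List ℕ → ℕ}
    {G : (D : Type) → FCS.Sys D → D → ℤ} (hG : ZeroE G) (hden : 0 < den)
    (hnl : 5 * nl ≤ 8 * den) (hnu : 2 * nu < 3 * den) (hdl : nu + dl < 2 * den)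
    (hhg : 2 * hg ≤ den) (hhl : 5 * hl ≤ 4 * den)
    (hstar : StarOkE den nl nu dl (hgf hg hl) F G) : FTL.NoMCt6 :=
  noMCt6_ofE hG hden hnl hnu hdl hhg hhl hstar fl SpT.okf_ok f1 f2 f3 (noSp_of SpT.w_ok SpT.t_ok)

/-- THE FINAL ASSEMBLY: the star inequality with flows on the edges and on the solid triangles
excludes minimal counterexamples -/
theorem noMCt6X {den nl nu dl hg hl : ℕ} {F : List ℕ → List ℕ → ℕ}
    {X : List ℕ → List ℕ → List ℕ → ℤ} (hX : ∀ a b c, X a b c + X b c a + X c a b = 0)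
    (hden : 0 < den)
    (hnl : 5 * nl ≤ 8 * den) (hnu : 2 * nu < 3 * den) (hdl : nu + dl < 2 * den)
    (hhg : 2 * hg ≤ den) (hhl : 5 * hl ≤ 4 * den)
    (hstar : StarOkX den nl nu dl (hgf hg hl) F X) : FTL.NoMCt6 :=
  noMCt6E (zeroE_tgx hX) hden hnl hnu hdl hhg hhl hstar

end Pool.FC8.Spn
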